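import Mathlib

/-!
# The Frobenius polynomial `T² - t T + p^11` at an ordinary prime
-/

set_option autoImplicit false

namespace H809.OD

open Polynomial

/-- The polynomial `T² - t T + p^11` has two roots in `ℚ_p`, of valuations `0` and `11`: its Newton
polygon has slopes `0` and `11`. -/
def SlopesZeroEleven (p : ℕ) [Fact p.Prime] (t : ℤ) : Prop :=
  ∃ α β : ℚ_[p], ‖α‖ = 1 ∧ ‖β‖ = (p : ℝ) ^ (-11 : ℤ) ∧
    (X ^ 2 - C (t : ℚ_[p]) * X + C ((p : ℚ_[p]) ^ 11) : ℚ_[p][X]) = (X - C α) * (X - C β)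

theorem slopes_iff (p : ℕ) [hp : Fact p.Prime] (t : ℤ) :
    SlopesZeroEleven p t ↔ ¬ (p : ℤ) ∣ t := by
  have hp1 : (1 : ℝ) < p := by exact_mod_cast hp.out.one_lt
  constructor
  · rintro ⟨α, β, hα, hβ, h⟩ hdvd
    have h1 : (t : ℚ_[p]) = α + β := by
      have h2 := congrArg (fun P : ℚ_[p][X] => P.eval 0) h
      have h3 := congrArg (fun P : ℚ_[p][X] => P.eval 1) h
      simp only [eval_add, eval_sub, eval_pow, eval_X, eval_mul, eval_C] at h2 h3
      linear_combination h2 - h3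
    have hb : ‖β‖ < 1 := by
      rw [hβ, zpow_neg]
      exact inv_lt_one_of_one_lt₀ (one_lt_zpow₀ hp1 (by norm_num))
    have h4 : ‖(t : ℚ_[p])‖ = 1 := by
      rw [h1, Padic.add_eq_max_of_ne (by rw [hα]; exact hb.ne'), hα]
      exact max_eq_left hb.le
    have h5 : ‖(t : ℚ_[p])‖ < 1 := (Padic.norm_intCast_lt_one_iff (p := p)).2 hdvd
    exact absurd h4 h5.ne
  · intro hdvd
    have hnt : ‖((t : ℤ_[p]))‖ = 1 := by
      by_contra hne
      have h1 : ‖(t : ℤ_[p])‖ < 1 := lt_of_le_of_ne (PadicInt.norm_le_one _) hne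
      exact hdvd (PadicInt.norm_intCast_lt_one_iff.1 h1)
    set F : ℤ_[p][X] := X ^ 2 - C (t : ℤ_[p]) * X + C ((p : ℤ_[p]) ^ 11) with hF
    have hFe : ∀ a : ℤ_[p], aeval a F = a ^ 2 - t * a + (p : ℤ_[p]) ^ 11 := by
      intro a
      rw [hF]
      simp only [map_add, map_sub, map_mul, map_pow, aeval_X, aeval_C, Algebra.algebraMap_self,
        RingHom.id_apply]
    have hF1 : aeval (t : ℤ_[p]) F = (p : ℤ_[p]) ^ 11 := by rw [hFe]; ring
    have hF2 : aeval (t : ℤ_[p]) (derivative F) = (t : ℤ_[p]) := by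
      rw [hF, derivative_add, derivative_sub, derivative_C, derivative_C_mul, derivative_X,
        derivative_X_pow]
      simp only [map_add, map_sub, map_mul, map_pow, aeval_X, aeval_C, Algebra.algebraMap_self,
        RingHom.id_apply, map_zero, map_natCast, mul_one]
      push_cast
      ring
    have hpn : ‖(p : ℤ_[p]) ^ 11‖ = (p : ℝ) ^ (-11 : ℤ) := by
      rw [PadicInt.norm_p_pow]; rfl
    have hpn1 : ‖(p : ℤ_[p]) ^ 11‖ < 1 := by
      rw [hpn, zpow_neg]
      exact inv_lt_one_of_one_lt₀ (one_lt_zpow₀ hp1 (by norm_num))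
    obtain ⟨z, hz, hz1, -, -⟩ := hensels_lemma (F := F) (a := (t : ℤ_[p])) (by
      rw [hF1, hF2, hnt, one_pow]
      exact hpn1)
    rw [hF2, hnt] at hz1
    have hzn : ‖z‖ = 1 := by
      have h1 : z = (z - t) + t := by ring
      rw [h1, PadicInt.norm_add_eq_max_of_ne (by rw [hnt]; exact hz1.ne), hnt]
      exact max_eq_right hz1.le
    have hz2 : z * (t - z) = (p : ℤ_[p]) ^ 11 := by
      rw [hFe] at hz
      linear_combination -hz
    have hz3 : ‖((t : ℤ_[p]) - z)‖ = (p : ℝ) ^ (-11 : ℤ) := by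
      rw [← hpn, ← hz2, norm_mul, hzn, one_mul]
    refine ⟨(z : ℚ_[p]), (((t : ℤ_[p]) - z : ℤ_[p]) : ℚ_[p]), ?_, ?_, ?_⟩
    · rw [← PadicInt.norm_def]; exact hzn
    · rw [← PadicInt.norm_def]; exact hz3
    · have h1 : (z : ℚ_[p]) * (((t : ℤ_[p]) - z : ℤ_[p]) : ℚ_[p]) = (p : ℚ_[p]) ^ 11 := by
        rw [← PadicInt.coe_mul, hz2]
        push_cast
        rfl
      have h2 : (z : ℚ_[p]) + (((t : ℤ_[p]) - z : ℤ_[p]) : ℚ_[p]) = (t : ℚ_[p]) := by
        rw [← PadicInt.coe_add]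
        have : z + ((t : ℤ_[p]) - z) = t := by ring
        rw [this]
        push_cast
        rfl
      rw [← h1, ← h2]
      simp only [C_add, C_mul]
      ring

end H809.OD
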