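import Pool.Agent.Run7.h809.OD.Defs

/-!
# Statements of the last part: Siegel lemma, growth, denominators, main theorem
-/

set_option autoImplicit false

open PowerSeries

namespace H809.OD

/-- the rows `u^j ζ^b (2^(d+1) F / w^N)^k` -/
noncomputable def row (N d : ℕ) (F : ℚ⟦X⟧) (j k b : ℕ) : ℚ⟦X⟧ :=
  u ^ j * zt ^ b * (2 ^ (d + 1) * F * wi ^ N) ^ k

/-- Statement PIG (to be deduced from `S_Near` and `Theta`): Siegel's lemma at the prime `2`.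
For `l ≥ D + M` the coefficient of `u^l` in `u^j (2u)^(l-j) ...` is divisible by `2^M`. -/
def S_Pig : Prop := ∀ (N : ℕ) (R : Polynomial ℤ) (F : ℚ⟦X⟧),
  th F = w ^ (N + 2) * Polynomial.aeval u R → ng F = -F → ∀ K D M h : ℕ,
  M * (2 * N * K + 1) * (D + M) < h * (D * ((K + 1) * (N * K + 1))) →
  ∃ c : ℕ → ℕ → ℕ → ℤ, (∀ j k b, |c j k b| < 2 ^ h) ∧
    (∃ j < D, ∃ k ≤ K, ∃ b ≤ N * K, c j k b ≠ 0) ∧
    ∃ (a : ℤ) (U g : ℚ⟦X⟧), Odd a ∧ coeff 0 U = (a : ℚ) ∧ g ∈ Ser2 ∧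
      U * ∑ j ∈ Finset.range D, ∑ k ∈ Finset.range (K + 1), ∑ b ∈ Finset.range (N * K + 1),
        (c j k b : ℚ⟦X⟧) * row N R.natDegree F j k b = 2 ^ M * g

/-- Statement GROW (from `Theta`): with `N_n(f) = ∑_{i ≤ n} |f_i| r^i` (submultiplicative) one has
`N(φ) ≤ 2/(1-r)`, `N(w) ≤ P²`, `N((w - w⁻)/8) ≤ P²`, `N(θ w) ≤ n P²`,
`w^(D+4NK) row = w^(D-j) ((w-w⁻)/8)^j (θ w)^b w^(3NK-3b) w^(NK-Nk) (2^(d+1) F)^k`,
`F_n = a_n / n`, `f = ∑ a_n q^n = ∑ R_i ((w-w⁻)/8)^i w^(N+2-i)`. -/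
def S_Grow : Prop := ∀ (N : ℕ) (R : Polynomial ℤ) (F : ℚ⟦X⟧), R.natDegree ≤ N + 2 →
  th F = w ^ (N + 2) * Polynomial.aeval u R → coeff 0 F = 0 →
  ∃ C : ℝ, 1 ≤ C ∧ ∀ r : ℝ, 0 < r → r < 1 → ∀ K D n j k b : ℕ, j ≤ D → k ≤ K → b ≤ N * K →
    |((coeff n (w ^ (D + 4 * N * K) * row N R.natDegree F j k b) : ℚ) : ℝ)| * r ^ n ≤
      (2 / (1 - r)) ^ (2 * D) * (C * (n + 1) * (2 / (1 - r))) ^ (15 * (N + 1) * (K + 1))

/-- the possible denominators: primes `p ≤ n₀` with `P p`, to the power `⌊log_p n₀⌋` -/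
noncomputable def Eden (P : ℕ → Prop) (n0 : ℕ) : ℕ := by
  classical
  exact ∏ p ∈ (Finset.range (n0 + 1)).filter (fun p => p.Prime ∧ P p), p ^ (Nat.log p n0)

/-- Statement DEN (from `Theta`): denominators of the rows. -/
def S_Den : Prop := ∀ (N : ℕ) (a : ℕ → ℤ) (P : ℕ → Prop) (n0 : ℕ),
  (∀ p, p.Prime → ¬ P p → ∀ n ≤ n0, (p : ℤ) ^ (n.factorization p) ∣ a n) →
  ∀ K s d j k b n : ℕ, k ≤ K → n ≤ n0 → ∃ z : ℤ,
    (Eden P n0 : ℚ) ^ K *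
      coeff n (w ^ s * row N d (PowerSeries.mk fun n => (a n : ℚ) / n) j k b) = z

/-- Statement SIZE: `log` of the denominators. -/
def S_Size : Prop := ∀ (P : ℕ → Prop) (n0 : ℕ), Real.log (Eden P n0) ≤
  (by classical exact ∑ p ∈ (Finset.range (n0 + 1)).filter (fun p => p.Prime ∧ P p), Real.log p) +
    Real.sqrt n0 * Real.log n0

/-- **Main theorem**: let `f = w^(N+2) R(u) = ∑ a_n q^n ≠ 0` have odd exponents only. If every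
prime `p` with `p ∤ a_n` for some multiple `n < p²` of `p` satisfies `P`, then `P` has positive
lower (log) density. -/
def S_Main : Prop := ∀ (N : ℕ) (R : Polynomial ℤ) (a : ℕ → ℤ) (P : ℕ → Prop), 1 ≤ N → R ≠ 0 →
  R.natDegree ≤ N + 2 → (∀ n, coeff n (w ^ (N + 2) * Polynomial.aeval u R) = (a n : ℚ)) →
  (∀ n, Even n → a n = 0) →
  (∀ p, p.Prime → ¬ P p → ∀ n < p ^ 2, p ∣ n → (p : ℤ) ∣ a n) →
  ∃ c : ℝ, 0 < c ∧ ∃ x0 : ℕ, ∀ x : ℕ, x0 ≤ x → c * x ≤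
    (by classical exact ∑ p ∈ (Finset.range (x + 1)).filter (fun p => p.Prime ∧ P p), Real.log p)

end H809.OD
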