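import Pool.Agent.Run7.h809.OD.Stm2

/-!
# Denominators
-/

set_option autoImplicit false

open PowerSeries

namespace H809.OD

/-- power series whose coefficients up to `n0` are integers -/
def IntUpTo (n0 : ℕ) : Subring ℚ⟦X⟧ where
  carrier := {f | ∀ n ≤ n0, ∃ z : ℤ, coeff n f = z}
  mul_mem' {f g} hf hg n hn := by
    rw [coeff_mul]
    have h1 : ∀ x ∈ Finset.HasAntidiagonal.antidiagonal n, ∃ z : ℤ, coeff x.1 f * coeff x.2 g = z := by
      intro x hx
      have hx' := Finset.HasAntidiagonal.mem_antidiagonal.1 hx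
      obtain ⟨y, hy⟩ := hf x.1 (by omega)
      obtain ⟨z, hz⟩ := hg x.2 (by omega)
      exact ⟨y * z, by rw [hy, hz]; push_cast; ring⟩
    choose! z hz using h1
    refine ⟨∑ x ∈ Finset.HasAntidiagonal.antidiagonal n, z x, ?_⟩
    push_cast
    exact Finset.sum_congr rfl hz
  one_mem' n _ := by
    rw [coeff_one]
    split_ifs
    · exact ⟨1, by simp⟩
    · exact ⟨0, by simp⟩
  add_mem' {f g} hf hg n hn := by
    obtain ⟨y, hy⟩ := hf n hn
    obtain ⟨z, hz⟩ := hg n hn
    exact ⟨y + z, by rw [map_add, hy, hz]; push_cast; ring⟩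
  zero_mem' n _ := ⟨0, by simp⟩
  neg_mem' {f} hf n hn := by
    obtain ⟨y, hy⟩ := hf n hn
    exact ⟨-y, by rw [map_neg, hy]; push_cast; ring⟩

lemma intUpTo_of_intSer {f : ℚ⟦X⟧} (hf : f ∈ IntSer) (n0 : ℕ) : f ∈ IntUpTo n0 := by
  intro n _
  obtain ⟨g, rfl⟩ := hf
  exact ⟨coeff n g, by simp⟩

lemma dvd_E (P : ℕ → Prop) (n0 : ℕ) (a : ℤ) (m : ℕ) (hm : m ≤ n0) (h0 : 0 < m)
    (h : ∀ p, p.Prime → ¬ P p → (p : ℤ) ^ (m.factorization p) ∣ a) :
    (m : ℤ) ∣ (Eden P n0 : ℤ) * a := by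
  classical
  have h1 : m ∣ Eden P n0 * a.natAbs := by
    rw [Nat.dvd_iff_prime_pow_dvd_dvd]
    intro p k hp hk
    rcases Nat.eq_zero_or_pos k with hk0 | hk0
    · rw [hk0, pow_zero]; exact one_dvd _
    have hkf : k ≤ m.factorization p := (hp.pow_dvd_iff_le_factorization h0.ne').1 hk
    by_cases hP : P p
    · refine Dvd.dvd.mul_right ?_ _
      have hpm : p ≤ m := Nat.le_of_dvd h0 ((dvd_pow_self p hk0.ne').trans hk)
      have h2 : p ^ (Nat.log p n0) ∣ Eden P n0 := by
        unfold Eden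
        refine Finset.dvd_prod_of_mem (fun p => p ^ (Nat.log p n0)) ?_
        simp only [Finset.mem_filter, Finset.mem_range]
        exact ⟨by omega, hp, hP⟩
      refine (pow_dvd_pow p ?_).trans h2
      have h3 : p ^ k ≤ n0 := (Nat.le_of_dvd h0 hk).trans hm
      exact Nat.le_log_of_pow_le hp.one_lt h3
    · refine Dvd.dvd.mul_left ?_ _
      have h2 := h p hp hP
      have h3 : p ^ (m.factorization p) ∣ a.natAbs := by
        rw [← Int.natCast_dvd_natCast, Int.dvd_natAbs]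
        push_cast
        exact h2
      exact (pow_dvd_pow p hkf).trans h3
  have h2 : (m : ℤ) ∣ ((Eden P n0 * a.natAbs : ℕ) : ℤ) := Int.natCast_dvd_natCast.2 h1
  rw [Nat.cast_mul, Int.natCast_natAbs] at h2
  exact (dvd_abs _ _).1 (by rw [abs_mul, Nat.abs_cast]; exact h2)

theorem den (h : Theta) : S_Den := by
  intro N a P n0 hP K s d j k b n hk hn
  set E : ℚ⟦X⟧ := (Eden P n0 : ℚ⟦X⟧) with hE
  set F : ℚ⟦X⟧ := PowerSeries.mk fun n => (a n : ℚ) / n with hF
  have hEF : E * F ∈ IntUpTo n0 := by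
    intro m hm
    have h1 : coeff m (E * F) = (Eden P n0 : ℚ) * ((a m : ℚ) / m) := by
      rw [hE, hF, ← map_natCast (C (R := ℚ)), coeff_C_mul, coeff_mk]
    rw [h1]
    rcases Nat.eq_zero_or_pos m with h0 | h0
    · subst h0
      exact ⟨0, by simp⟩
    · obtain ⟨z, hz⟩ := dvd_E P n0 (a m) m hm h0 (fun p hp hPp => hP p hp hPp m hm)
      refine ⟨z, ?_⟩
      have h2 : (Eden P n0 : ℚ) * (a m : ℚ) = m * z := by exact_mod_cast hz
      have h3 : (m : ℚ) ≠ 0 := by exact_mod_cast h0.ne'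
      field_simp
      linarith
  have hw := intUpTo_of_intSer h.w_int n0
  have hwi := intUpTo_of_intSer h.wi_int n0
  have hu := intUpTo_of_intSer h.u_int n0
  have hzt := intUpTo_of_intSer h.zt_int n0
  have hEm : E ∈ IntUpTo n0 := natCast_mem _ _
  have h2m : (2 : ℚ⟦X⟧) ∈ IntUpTo n0 := by
    have : ((2 : ℕ) : ℚ⟦X⟧) ∈ IntUpTo n0 := natCast_mem _ _
    exact_mod_cast this
  have hmem : E ^ (K - k) * (w ^ s * (u ^ j * zt ^ b * (2 ^ (d + 1) * (E * F) * wi ^ N) ^ k)) ∈
      IntUpTo n0 := by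
    refine mul_mem (pow_mem hEm _) (mul_mem (pow_mem hw _) (mul_mem (mul_mem (pow_mem hu _)
      (pow_mem hzt _)) (pow_mem (mul_mem (mul_mem (pow_mem h2m _) hEF) (pow_mem hwi _)) _)))
  obtain ⟨z, hz⟩ := hmem n hn
  refine ⟨z, ?_⟩
  rw [← hz]
  have h4 : E ^ (K - k) * (w ^ s * (u ^ j * zt ^ b * (2 ^ (d + 1) * (E * F) * wi ^ N) ^ k)) =
      E ^ K * (w ^ s * row N d F j k b) := by
    have h5 : E ^ K = E ^ (K - k) * E ^ k := by rw [← pow_add]; congr 1; omega
    rw [h5, row]
    ring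
  rw [h4]
  have h6 : E ^ K = C ((Eden P n0 : ℚ) ^ K) := by
    rw [hE, map_pow, map_natCast]
  rw [h6, coeff_C_mul]

theorem size : S_Size := by
  classical
  intro P n0
  set S := (Finset.range (n0 + 1)).filter (fun p => p.Prime ∧ P p) with hS
  have h1 : Real.log (Eden P n0) = ∑ p ∈ S, (Nat.log p n0 : ℝ) * Real.log p := by
    have h2 : Eden P n0 = ∏ p ∈ S, p ^ (Nat.log p n0) := by
      unfold Eden
      refine Finset.prod_congr ?_ fun _ _ => rfl
      ext p; simp [hS]
    rw [h2, Nat.cast_prod, Real.log_prod]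
    · refine Finset.sum_congr rfl fun p _ => ?_
      rw [Nat.cast_pow, Real.log_pow]
    · intro p hp
      have := (Finset.mem_filter.1 hp).2.1.pos
      positivity
  rw [h1]
  have h3 : ∀ p ∈ S, (Nat.log p n0 : ℝ) * Real.log p ≤
      Real.log p + if p * p ≤ n0 then Real.log n0 else 0 := by
    intro p hp
    have hpp := (Finset.mem_filter.1 hp).2.1
    have hpn : p ≤ n0 := by
      have := Finset.mem_range.1 (Finset.mem_filter.1 hp).1
      omega
    have hlog : 0 ≤ Real.log p := Real.log_natCast_nonneg p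
    have hn0 : 0 < n0 := lt_of_lt_of_le hpp.pos hpn
    split_ifs with h
    · have h4 : (Nat.log p n0 : ℝ) * Real.log p ≤ Real.log n0 := by
        rw [← Real.log_pow]
        refine Real.log_le_log (by have := hpp.pos; positivity) ?_
        exact_mod_cast Nat.pow_log_le_self p hn0.ne'
      linarith
    · have h4 : Nat.log p n0 < 2 := by
        apply Nat.log_lt_of_lt_pow hn0.ne'
        rw [pow_two]; omega
      have h5 : (Nat.log p n0 : ℝ) ≤ 1 := by exact_mod_cast Nat.le_of_lt_succ h4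
      nlinarith
  refine (Finset.sum_le_sum h3).trans ?_
  rw [Finset.sum_add_distrib]
  have h4 : ∑ p ∈ S, Real.log p =
      (∑ p ∈ (Finset.range (n0 + 1)).filter (fun p => p.Prime ∧ P p), Real.log p) := rfl
  refine add_le_add (le_of_eq ?_) ?_
  · refine Finset.sum_congr ?_ fun _ _ => rfl
    ext p; simp [hS]
  · rw [← Finset.sum_filter, Finset.sum_const, nsmul_eq_mul]
    have h5 : ((S.filter (fun p => p * p ≤ n0)).card : ℝ) ≤ Real.sqrt n0 := by
      have h6 : (S.filter (fun p => p * p ≤ n0)) ⊆ Finset.Icc 1 (Nat.sqrt n0) := by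
        intro p hp
        rw [Finset.mem_filter] at hp
        rw [Finset.mem_Icc]
        refine ⟨(Finset.mem_filter.1 hp.1).2.1.pos, ?_⟩
        rw [Nat.le_sqrt]
        exact hp.2
      have h7 := Finset.card_le_card h6
      rw [Nat.card_Icc, Nat.add_sub_cancel] at h7
      refine (Nat.cast_le.2 h7).trans ?_
      exact Real.nat_sqrt_le_real_sqrt
    exact mul_le_mul_of_nonneg_right h5 (Real.log_natCast_nonneg n0)

end H809.OD
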