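import Pool.Agent.Run7.h809.OD.Zero2

/-!
# The zero estimate, conclusion
-/

set_option autoImplicit false
set_option linter.unusedSectionVars false

open Polynomial Differential
open scoped Differential

namespace H809.OD.Inst

open H809.OD.Abs

/-- Cramer's rule -/
lemma cramer {A L : Type*} [CommRing A] [CommRing L] (ev : A →+* L) {m : ℕ}
    (M : Matrix (Fin m) (Fin m) A) (x y : Fin m → L)
    (hx : ∀ a, x a = ∑ i, ev (M a i) * y i) (i0 : Fin m) :
    ∑ a, ev (M.adjugate i0 a) * x a = ev M.det * y i0 := by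
  have h1 : ∀ i, ∑ a, M.adjugate i0 a * M a i = if i0 = i then M.det else 0 := by
    intro i
    have h2 := congrFun (congrFun M.adjugate_mul i0) i
    rw [Matrix.mul_apply] at h2
    rw [h2, Matrix.smul_apply, Matrix.one_apply]
    split_ifs <;> simp
  simp only [hx, Finset.mul_sum]
  rw [Finset.sum_comm]
  have h3 : ∀ i, ∑ a, ev (M.adjugate i0 a) * (ev (M a i) * y i) =
      ev (if i0 = i then M.det else 0) * y i := by
    intro i
    rw [← h1 i, map_sum, Finset.sum_mul]
    refine Finset.sum_congr rfl fun a _ => ?_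
    rw [map_mul, mul_assoc]
  simp only [h3]
  rw [Finset.sum_eq_single i0]
  · rw [if_pos rfl]
  · intro b _ hb
    rw [if_neg (Ne.symm hb), map_zero, zero_mul]
  · intro h; exact absurd (Finset.mem_univ i0) h

/-- degree of a determinant -/
lemma natDegree_det {m d : ℕ} (M : Matrix (Fin m) (Fin m) ℚ[X]) (hM : ∀ a i, (M a i).natDegree ≤ d) :
    M.det.natDegree ≤ m * d := by
  rw [Matrix.det_apply]
  refine natDegree_sum_le_of_forall_le _ _ fun σ _ => ?_
  have h1 : (∏ i, M (σ i) i).natDegree ≤ m * d := by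
    refine (natDegree_prod_le _ _).trans ?_
    refine (Finset.sum_le_sum fun i _ => hM (σ i) i).trans ?_
    simp
  rcases Int.units_eq_one_or (Equiv.Perm.sign σ) with h | h
  · rw [h, one_smul]; exact h1
  · rw [h]
    simpa using h1

/-- the vanishing order of the evaluation, abstractly: the main computation -/
theorem zero_of (hi : S_Ind) (hr : S_Rat) (N K κ D : ℕ) (R : ℚ[X]) (F : PowerSeries ℚ)
    (hN : 1 ≤ N) (hκ : N * K ≤ κ) (hR : R ≠ 0) (hd : R.natDegree ≤ 2 * N + 1)
    (hF : th F = w ^ (N + 2) * aeval u R) (c : ℕ → ℕ → ℚ[X]) (hcD : ∀ k b, (c k b).natDegree ≤ D)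
    (k0 : ℕ) (hk0 : k0 ≤ K) (hc0 : Supp N κ k0 c) (hne : ∃ b, c k0 b ≠ 0) (B : ℕ)
    (hB : (K + 1) * (κ + 1) * (D + (2 * N + 4) * ((K + 1) * (κ + 1))) ≤ B)
    (Φ f : PowerSeries ℚ) (hΦ : Φ = ∑ k ∈ Finset.range (K + 1), ∑ b ∈ Finset.range (κ + 1),
      aeval u (c k b) * zt ^ b * (F * wi ^ N) ^ k) (hf : Φ = PowerSeries.X ^ (B + 1) * f) :
    False := by
  classical
  set S := sys hi with hS
  have hSw : S.w = io w := rfl
  have hSz : S.ζ = io zt := rfl
  -- arrays
  let Pa : ℕ → ℕ → ℕ → ℚ[X] := fun a => (st N κ R)^[a] c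
  have hPa0 : Pa 0 = c := rfl
  have hPa1 : ∀ a, Pa (a + 1) = st N κ R (Pa a) := fun a => Function.iterate_succ_apply' _ _ _
  have hPaS : ∀ a, Supp N κ k0 (Pa a) := by
    intro a
    induction a with
    | zero => exact hc0
    | succ a ih => rw [hPa1]; exact supp_st ih
  have hPaD : ∀ a k b, (Pa a k b).natDegree ≤ D + a * (2 * N + 4) := by
    intro a
    induction a with
    | zero => intro k b; rw [hPa0]; simpa using hcD k b
    | succ a ih =>
      intro k b
      rw [hPa1]
      refine (natDegree_st hN hd ih k b).trans ?_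
      have : (a + 1) * (2 * N + 4) = a * (2 * N + 4) + (2 * N + 4) := by ring
      omega
  let va : ℕ → ℕ → Kf[X] := fun a => vec κ (Pa a)
  have hva : ∀ a, va (a + 1) = nabs S N κ (al R) (va a) := by
    intro a
    show vec κ (Pa (a + 1)) = _
    rw [hPa1]
    exact vec_st hi R (hPaS a)
  have hvz : ∀ a, ∀ k > k0, va a k = 0 := by
    intro a k hk
    ext b
    rw [coeff_vec (hPaS a), (hPaS a).zero (Or.inl hk), map_zero, coeff_zero]
  have hvdeg : ∀ a k, (va a k).natDegree ≤ κ - N * k := by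
    intro a k
    rw [natDegree_le_iff_coeff_eq_zero]
    intro b hb
    rw [coeff_vec (hPaS a), (hPaS a).zero (Or.inr (by omega)), map_zero]
  have hv0 : va 0 k0 ≠ 0 := by
    obtain ⟨b, hb⟩ := hne
    intro h0
    have h1 := congrArg (fun P : Kf[X] => P.coeff b) h0
    beta_reduce at h1
    rw [coeff_vec (hPaS 0), coeff_zero] at h1
    exact hb (al_inj (h1.trans (map_zero _).symm))
  -- indices
  let ι0 : Finset (ℕ × ℕ) := ((Finset.range (k0 + 1)) ×ˢ (Finset.range (κ + 1))).filter
    (fun x => x.2 + N * x.1 ≤ κ)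
  have hmemι : ∀ x : ℕ × ℕ, x ∈ ι0 ↔ x.1 ≤ k0 ∧ x.2 + N * x.1 ≤ κ := by
    intro x
    simp only [ι0, Finset.mem_filter, Finset.mem_product, Finset.mem_range]
    constructor
    · rintro ⟨⟨h1, _⟩, h2⟩; exact ⟨by omega, h2⟩
    · rintro ⟨h1, h2⟩; exact ⟨⟨by omega, by omega⟩, h2⟩
  set m := ι0.card with hm
  have hm1 : m ≤ (K + 1) * (κ + 1) := by
    refine (Finset.card_filter_le _ _).trans ?_
    rw [Finset.card_product, Finset.card_range, Finset.card_range]
    exact Nat.mul_le_mul_right _ (by omega)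
  let eq : ι0 ≃ Fin m := ι0.equivFin
  let e : Fin m → ℕ × ℕ := fun i => (eq.symm i : ℕ × ℕ)
  have he : Function.Injective e := fun i j hij => eq.symm.injective (Subtype.ext hij)
  have heι : ∀ i, e i ∈ ι0 := fun i => (eq.symm i).2
  have he1 : ∀ i, (e i).1 ≤ k0 := fun i => ((hmemι _).1 (heι i)).1
  have he2 : ∀ i, (e i).2 + N * (e i).1 ≤ κ := fun i => ((hmemι _).1 (heι i)).2
  let i0 : Fin m := eq ⟨(0, 0), (hmemι _).2 ⟨Nat.zero_le _, by simp⟩⟩
  have hei0 : e i0 = (0, 0) := by simp [e, i0]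
  let M : Matrix (Fin m) (Fin m) ℚ[X] := Matrix.of fun a i => Pa a (e i).1 (e i).2
  have hMD : ∀ a i, (M a i).natDegree ≤ D + (2 * N + 4) * ((K + 1) * (κ + 1)) := by
    intro a i
    refine (hPaD a _ _).trans ?_
    have h1 : (a : ℕ) ≤ (K + 1) * (κ + 1) := by have := a.2; omega
    have h2 : (a : ℕ) * (2 * N + 4) ≤ (K + 1) * (κ + 1) * (2 * N + 4) := Nat.mul_le_mul_right _ h1
    have h3 : (K + 1) * (κ + 1) * (2 * N + 4) = (2 * N + 4) * ((K + 1) * (κ + 1)) := by ring
    omega
  have hdet : M.det ≠ 0 := by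
    intro h0
    have h1 : (M.map al).det = 0 := by
      have h2 := RingHom.map_det al M
      rw [h0, map_zero] at h2
      exact h2.symm
    obtain ⟨l, hl0, hl⟩ := Matrix.exists_vecMul_eq_zero_iff.2 h1
    apply hl0
    let l' : ℕ → Kf := fun a => if h : a < m then l ⟨a, h⟩ else 0
    have h3 : ∑ a ∈ Finset.range m, l' a • va a = 0 := by
      funext k
      ext b
      rw [Finset.sum_range, Finset.sum_apply, Pi.zero_apply, coeff_zero, finsetSum_coeff]
      by_cases hkb : (k, b) ∈ ι0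
      · have h4 := congrFun hl (eq ⟨(k, b), hkb⟩)
        simp only [Matrix.vecMul, dotProduct, Matrix.map_apply, Pi.zero_apply] at h4
        rw [← h4]
        refine Finset.sum_congr rfl fun a _ => ?_
        rw [Pi.smul_apply, coeff_smul, coeff_vec (hPaS a), smul_eq_mul]
        simp [l', M, e]
      · refine Finset.sum_eq_zero fun a _ => ?_
        rw [Pi.smul_apply, coeff_smul, coeff_vec (hPaS a), (hPaS a).zero, map_zero, smul_zero]
        rw [hmemι] at hkb
        simp only at hkb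
        omega
    have h5 := krylov S N κ K hκ (al R) (io F) (deriv_F N R F hF)
      (fun c G hc hG => hrat hi hr N R hN hR hd c G hc hG) va hva hvdeg k0 hk0 hv0 hvz m e he he1
      he2 l' h3
    funext a
    have h6 := h5 a a.2
    simpa [l'] using h6
  -- evaluation
  let x : ℕ → Lf := fun a => PsiA S N κ K (io F) (va a)
  let y : ℕ × ℕ → Lf := fun z => S.w ^ (κ - N * z.1) * io F ^ z.1 * S.ζ ^ z.2
  have hxa : ∀ a, x a = ∑ i : Fin m, ((algebraMap Kf Lf).comp al) (Pa a (e i).1 (e i).2) * y (e i) := by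
    intro a
    have h1 : ∑ i : Fin m, ((algebraMap Kf Lf).comp al) (Pa a (e i).1 (e i).2) * y (e i) =
        ∑ z ∈ ι0, ((algebraMap Kf Lf).comp al) (Pa a z.1 z.2) * y z := by
      rw [← Finset.sum_coe_sort ι0]
      exact Equiv.sum_comp eq.symm
        (fun z : ι0 => ((algebraMap Kf Lf).comp al) (Pa a (z : ℕ × ℕ).1 (z : ℕ × ℕ).2) * y z)
    rw [h1]
    have h2 : ∑ z ∈ ι0, ((algebraMap Kf Lf).comp al) (Pa a z.1 z.2) * y z =
        ∑ z ∈ (Finset.range (K + 1)) ×ˢ (Finset.range (κ + 1)),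
          ((algebraMap Kf Lf).comp al) (Pa a z.1 z.2) * y z := by
      refine Finset.sum_subset (fun z hz => ?_) fun z _ hz => ?_
      · have := (hmemι z).1 hz
        rw [Finset.mem_product, Finset.mem_range, Finset.mem_range]
        omega
      · rw [hmemι] at hz
        rw [(hPaS a).zero (by omega), map_zero, zero_mul]
    rw [h2, Finset.sum_product]
    show PsiA S N κ K (io F) (va a) = _
    unfold PsiA
    refine Finset.sum_congr rfl fun k _ => ?_
    have h3 : aeval S.ζ (va a k) = ∑ b ∈ Finset.range (κ + 1),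
        ((algebraMap Kf Lf).comp al) (Pa a k b) * S.ζ ^ b := by
      show aeval S.ζ (vec κ (Pa a) k) = _
      unfold vec
      rw [map_sum]
      refine Finset.sum_congr rfl fun b _ => ?_
      rw [map_mul, map_pow, aeval_X, aeval_C]
      rfl
    rw [h3, Finset.mul_sum]
    refine Finset.sum_congr rfl fun b _ => ?_
    show S.w ^ (κ - N * k) * io F ^ k * (_ * S.ζ ^ b) = _ * (S.w ^ (κ - N * k) * io F ^ k * S.ζ ^ b)
    rw [← mul_assoc, mul_comm (S.w ^ (κ - N * k) * io F ^ k), mul_assoc]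
  have hJ0 : J (B + 1) (x 0) := by
    refine ⟨w ^ κ * f, ?_⟩
    have h1 : x 0 = io (w ^ κ * Φ) := by
      show PsiA S N κ K (io F) (vec κ c) = _
      unfold PsiA
      rw [hΦ, Finset.mul_sum, map_sum]
      refine Finset.sum_congr rfl fun k hk => ?_
      have h2 : aeval S.ζ (vec κ c k) = io (∑ b ∈ Finset.range (κ + 1), aeval u (c k b) * zt ^ b) := by
        unfold vec
        rw [map_sum, map_sum]
        refine Finset.sum_congr rfl fun b _ => ?_
        rw [map_mul, map_pow, aeval_X, aeval_C, am_al, map_mul, map_pow, hSz]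
      rw [h2, hSw, ← map_pow, ← map_pow, ← map_mul, ← map_mul]
      congr 1
      have hk' := Finset.mem_range.1 hk
      have h4 : N * k ≤ κ := le_trans (Nat.mul_le_mul_left N (by omega)) hκ
      have h5 : w ^ (κ - N * k) * F ^ k = w ^ κ * (F * wi ^ N) ^ k := by
        have h6 : w ^ κ = w ^ (κ - N * k) * w ^ (N * k) := by
          rw [← pow_add]; congr 1; omega
        rw [h6, mul_pow, ← pow_mul]
        have h7 : w ^ (N * k) * wi ^ (N * k) = 1 := by rw [← mul_pow, w_wi, one_pow]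
        calc w ^ (κ - N * k) * F ^ k = w ^ (κ - N * k) * F ^ k * (w ^ (N * k) * wi ^ (N * k)) := by
              rw [h7, mul_one]
          _ = _ := by ring
      rw [h5, Finset.mul_sum, Finset.mul_sum]
      refine Finset.sum_congr rfl fun b _ => ?_
      ring
    rw [h1, hf]
    congr 1
    ring
  have hJ : ∀ a, J (B + 1) (x a) := by
    intro a
    induction a with
    | zero => exact hJ0
    | succ a ih =>
      have h1 : x (a + 1) = (x a)′ := by
        show PsiA S N κ K (io F) (va (a + 1)) = _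
        rw [hva]
        exact (PsiA_deriv S hκ (al R) (io F) (deriv_F N R F hF) (va a)
          (fun k hk => hvz a k (by omega))).symm
      rw [h1]
      exact J_deriv ih
  have hcr := cramer ((algebraMap Kf Lf).comp al) M (fun a => x a) (fun i => y (e i))
    (fun a => hxa a) i0
  have hJd : J (B + 1) (((algebraMap Kf Lf).comp al) M.det * y (e i0)) := by
    rw [← hcr]
    refine J_sum _ _ fun a _ => ?_
    have h1 : ((algebraMap Kf Lf).comp al) (M.adjugate i0 a) = io (aeval u (M.adjugate i0 a)) :=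
      am_al _
    rw [h1]
    exact J_mul (hJ a) _
  obtain ⟨g, hg⟩ := hJd
  have h1 : ((algebraMap Kf Lf).comp al) M.det = io (aeval u M.det) := am_al _
  have h2 : y (e i0) = io (w ^ κ) := by
    rw [hei0]
    show S.w ^ (κ - N * 0) * io F ^ 0 * S.ζ ^ 0 = _
    rw [mul_zero, Nat.sub_zero, pow_zero, pow_zero, mul_one, mul_one, hSw, map_pow]
  rw [h1, h2, ← map_mul] at hg
  have h3 := io_inj hg
  have h4 : aeval u M.det = PowerSeries.X ^ (B + 1) * (g * wi ^ κ) := by
    have h5 : w ^ κ * wi ^ κ = 1 := by rw [← mul_pow, w_wi, one_pow]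
    calc aeval u M.det = aeval u M.det * (w ^ κ * wi ^ κ) := by rw [h5, mul_one]
      _ = (aeval u M.det * w ^ κ) * wi ^ κ := by ring
      _ = _ := by rw [h3]; ring
  refine ord_aeval M.det hdet (B + 1) ?_ _ h4
  have h6 := natDegree_det M hMD
  have h7 : m * (D + (2 * N + 4) * ((K + 1) * (κ + 1))) ≤
      (K + 1) * (κ + 1) * (D + (2 * N + 4) * ((K + 1) * (κ + 1))) := Nat.mul_le_mul_right _ hm1
  omega

/-- **The zero estimate.** -/
theorem zero_est (hi : S_Ind) (hr : S_Rat) : S_Zero := by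
  classical
  intro N K κ D R F hN hκ hR hd hF c hcD hcS hcne
  by_contra hcon
  push Not at hcon
  set B := (K + 1) * (κ + 1) * (D + (2 * N + 4) * ((K + 1) * (κ + 1))) with hB
  set Φ := ∑ k ∈ Finset.range (K + 1), ∑ b ∈ Finset.range (κ + 1),
      aeval u (c k b) * zt ^ b * (F * wi ^ N) ^ k with hΦ
  obtain ⟨k, b, hkb⟩ := hcne
  set k0 := Nat.findGreatest (fun k => ∃ b, c k b ≠ 0) K with hk0
  have hk1 := (hcS k b hkb).1
  have h1 : ∃ b, c k0 b ≠ 0 := Nat.findGreatest_spec (P := fun k => ∃ b, c k b ≠ 0) hk1 ⟨b, hkb⟩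
  have h2 : k0 ≤ K := Nat.findGreatest_le K
  have h3 : Supp N κ k0 c := by
    intro k' b' hne
    have h4 := hcS k' b' hne
    refine ⟨?_, h4.2⟩
    exact Nat.le_findGreatest h4.1 ⟨b', hne⟩
  have h5 : (PowerSeries.X : PowerSeries ℚ) ^ (B + 1) ∣ Φ := by
    rw [PowerSeries.X_pow_dvd_iff]
    intro m hm
    exact hcon m (by omega)
  obtain ⟨f, hf⟩ := h5
  exact zero_of hi hr N K κ D R F hN hκ hR hd hF c hcD k0 h2 h3 h1 B le_rfl Φ f hΦ hf

end H809.OD.Inst
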