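import Pool.Agent.Run7.h809.OD.Zero

/-!
# The zero estimate, second part
-/

set_option autoImplicit false
set_option linter.unusedSectionVars false

open Polynomial Differential
open scoped Differential

namespace H809.OD.Inst

open H809.OD.Abs

/-- the connection on arrays of polynomials in `u` -/
noncomputable def st (N κ : ℕ) (R : ℚ[X]) (P : ℕ → ℕ → ℚ[X]) : ℕ → ℕ → ℚ[X] := fun k b =>
  pp * derivative (P k b) + (if b = 0 then 0 else ((κ + 1 - N * k - b : ℕ) : ℚ[X]) * P k (b - 1)) +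
    ((b + 1 : ℕ) : ℚ[X]) * eta * P k (b + 1) + ((k + 1 : ℕ) : ℚ[X]) * R * P (k + 1) b

/-- support condition -/
def Supp (N κ k0 : ℕ) (P : ℕ → ℕ → ℚ[X]) : Prop := ∀ k b, P k b ≠ 0 → k ≤ k0 ∧ b + N * k ≤ κ

lemma Supp.zero {N κ k0 : ℕ} {P : ℕ → ℕ → ℚ[X]} (hP : Supp N κ k0 P) {k b : ℕ}
    (h : k0 < k ∨ κ < b + N * k) : P k b = 0 := by
  by_contra hne
  have := hP k b hne
  omega

lemma supp_st {N κ k0 : ℕ} {R : ℚ[X]} {P : ℕ → ℕ → ℚ[X]} (hP : Supp N κ k0 P) :
    Supp N κ k0 (st N κ R P) := by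
  intro k b hne
  by_contra hcon
  apply hne
  have hcon' : k0 < k ∨ κ < b + N * k := by omega
  have e1 : P k b = 0 := hP.zero hcon'
  have e2 : P k (b + 1) = 0 := hP.zero (by omega)
  have e3 : P (k + 1) b = 0 := hP.zero (by
    have : N * (k + 1) = N * k + N := by ring
    omega)
  have e4 : (if b = 0 then 0 else ((κ + 1 - N * k - b : ℕ) : ℚ[X]) * P k (b - 1)) = 0 := by
    split_ifs with hb
    · rfl
    · rcases hcon' with h | h
      · rw [hP.zero (Or.inl h), mul_zero]
      · have : κ + 1 - N * k - b = 0 := by omega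
        rw [this]; simp
  unfold st
  rw [e1, e2, e3, e4]
  simp

/-- the vector attached to an array -/
noncomputable def vec (κ : ℕ) (P : ℕ → ℕ → ℚ[X]) : ℕ → Kf[X] := fun k =>
  ∑ b ∈ Finset.range (κ + 1), C (al (P k b)) * X ^ b

lemma coeff_vec {N κ k0 : ℕ} {P : ℕ → ℕ → ℚ[X]} (hP : Supp N κ k0 P) (k b : ℕ) :
    (vec κ P k).coeff b = al (P k b) := by
  unfold vec
  rw [finsetSum_coeff]
  simp only [coeff_C_mul, coeff_X_pow]
  by_cases hb : b < κ + 1
  · rw [Finset.sum_eq_single b]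
    · simp
    · intro c _ hc
      rw [if_neg (Ne.symm hc), mul_zero]
    · intro h; exact absurd (Finset.mem_range.2 hb) h
  · rw [hP.zero (Or.inr (by omega)), map_zero]
    refine Finset.sum_eq_zero fun c hc => ?_
    rw [if_neg (by have := Finset.mem_range.1 hc; omega), mul_zero]

lemma vec_st (hi : S_Ind) {N κ k0 : ℕ} (R : ℚ[X]) {P : ℕ → ℕ → ℚ[X]} (hP : Supp N κ k0 P) :
    vec κ (st N κ R P) = nabs (sys hi) N κ (al R) (vec κ P) := by
  funext k
  ext b
  rw [coeff_vec (supp_st hP)]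
  unfold nabs
  rw [coeff_add]
  have h1 : (((k + 1 : ℕ) : Kf[X]) * C (al R) * vec κ P (k + 1)).coeff b =
      ((k + 1 : ℕ) : Kf) * al R * al (P (k + 1) b) := by
    have : ((k + 1 : ℕ) : Kf[X]) * C (al R) = C (((k + 1 : ℕ) : Kf) * al R) := by
      rw [C_mul, map_natCast]
    rw [this, coeff_C_mul, coeff_vec hP]
  rw [h1]
  have h3 : (sys hi).η = al eta := rfl
  rcases b with _ | b
  · rw [coeff_nab_zero, coeff_vec hP, coeff_vec hP, deriv_al, h3]
    unfold st
    simp only [if_true, add_zero, zero_add, Nat.cast_one, one_mul]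
    rw [map_add, map_add]
    simp only [map_mul, map_natCast]
  · rw [coeff_nab_succ, coeff_vec hP, coeff_vec hP, coeff_vec hP, deriv_al, h3]
    unfold st
    rw [if_neg (Nat.succ_ne_zero b), Nat.add_sub_cancel]
    rw [map_add, map_add, map_add]
    simp only [map_mul, map_natCast]
    have h4 : ((κ + 1 - N * k - (b + 1) : ℕ) : Kf) * al (P k b) =
        (((κ - N * k : ℕ) : Kf) - b) * al (P k b) := by
      by_cases h0 : P k b = 0
      · rw [h0]; simp
      · have := hP k b h0
        have h5 : κ + 1 - N * k - (b + 1) = κ - N * k - b := by omega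
        rw [h5, Nat.cast_sub (by omega)]
    rw [h4]
    push_cast
    ring

/-- the primitive -/
lemma deriv_F (N : ℕ) (R : ℚ[X]) (F : PowerSeries ℚ) (hF : th F = w ^ (N + 2) * aeval u R) :
    (io F)′ = algebraMap Kf Lf (al R) * io w ^ N := by
  rw [deriv_io theta_holds F (w ^ N * aeval u R) (by rw [hF]; ring), map_mul, map_pow, am_al,
    mul_comm]

/-- elements divisible by `q^n` -/
def J (n : ℕ) (x : Lf) : Prop := ∃ f : PowerSeries ℚ, x = io (PowerSeries.X ^ n * f)

lemma J_add {n : ℕ} {x y : Lf} (hx : J n x) (hy : J n y) : J n (x + y) := by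
  obtain ⟨f, rfl⟩ := hx
  obtain ⟨g, rfl⟩ := hy
  exact ⟨f + g, by rw [mul_add, map_add]⟩

lemma J_mul {n : ℕ} {x : Lf} (hx : J n x) (g : PowerSeries ℚ) : J n (io g * x) := by
  obtain ⟨f, rfl⟩ := hx
  exact ⟨g * f, by rw [← map_mul]; congr 1; ring⟩

lemma J_sum {n : ℕ} {ι : Type*} (s : Finset ι) (x : ι → Lf) (hx : ∀ i ∈ s, J n (x i)) :
    J n (∑ i ∈ s, x i) := by
  classical
  induction s using Finset.induction_on with
  | empty => exact ⟨0, by simp⟩
  | insert i s hi ih =>
    rw [Finset.sum_insert hi]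
    exact J_add (hx i (Finset.mem_insert_self i s))
      (ih fun j hj => hx j (Finset.mem_insert_of_mem hj))

lemma J_deriv {n : ℕ} {x : Lf} (hx : J n x) : J n x′ := by
  obtain ⟨f, rfl⟩ := hx
  refine ⟨wi ^ 2 * ((n : PowerSeries ℚ) * f + th f), ?_⟩
  rw [deriv_Lf, EL_io]
  have h1 : th (PowerSeries.X ^ n * f) = PowerSeries.X ^ n * ((n : PowerSeries ℚ) * f + th f) := by
    have h2 : th (PowerSeries.X ^ n : PowerSeries ℚ) = (n : PowerSeries ℚ) * PowerSeries.X ^ n := by
      ext m
      rw [coeff_th', ← map_natCast (PowerSeries.C (R := ℚ)) n, PowerSeries.coeff_C_mul,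
        PowerSeries.coeff_X_pow]
      split_ifs with h
      · rw [h]
      · simp
    rw [Derivation.leibniz, h2]
    simp only [smul_eq_mul]
    ring
  rw [h1]
  have h3 : (io w ^ 2)⁻¹ = io wi ^ 2 := by
    have h4 := io_w_wi
    have h5 := io_w0
    field_simp
    rw [← mul_pow, h4, one_pow]
  rw [h3, ← map_pow, ← map_mul]
  congr 1
  ring

/-- the order of a polynomial in `u` is at most its degree -/
lemma ord_aeval (P : ℚ[X]) (hP : P ≠ 0) (n : ℕ) (hn : P.natDegree < n) (f : PowerSeries ℚ) :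
    aeval u P ≠ PowerSeries.X ^ n * f := by
  intro heq
  obtain ⟨Q, hQ1, hQ2⟩ := exists_eq_pow_rootMultiplicity_mul_and_not_dvd P hP 0
  rw [C_0, sub_zero] at hQ1 hQ2
  set m := rootMultiplicity 0 P with hm
  have hmn : m < n := by
    have hQ0 : Q ≠ 0 := by rintro rfl; exact hQ2 (dvd_zero _)
    have h1 : P.natDegree = m + Q.natDegree := by
      conv_lhs => rw [hQ1]
      rw [natDegree_mul (pow_ne_zero m X_ne_zero) hQ0, natDegree_X_pow]
    omega
  obtain ⟨u', hu'⟩ : ∃ u', u = PowerSeries.X * u' := by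
    have h1 : (PowerSeries.X : PowerSeries ℚ) ∣ u := by
      rw [PowerSeries.X_dvd_iff]
      exact Run7.h709.OD.cc_u theta_holds
    exact h1
  have hu1 : PowerSeries.constantCoeff u' = 1 := by
    have h1 := theta_holds.u_one
    rw [hu', ← zero_add 1, PowerSeries.coeff_succ_X_mul] at h1
    rw [← PowerSeries.coeff_zero_eq_constantCoeff_apply]; exact h1
  rw [hQ1, map_mul, map_pow, aeval_X] at heq
  have h2 : (PowerSeries.X : PowerSeries ℚ) ^ m * (u' ^ m * aeval u Q) =
      PowerSeries.X ^ m * (PowerSeries.X ^ (n - m) * f) := by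
    rw [← mul_assoc, ← mul_pow, ← hu', heq, ← mul_assoc, ← pow_add]
    congr 2
    omega
  have h3 := mul_left_cancel₀ (pow_ne_zero m PowerSeries.X_ne_zero) h2
  have h4 := congrArg PowerSeries.constantCoeff h3
  rw [map_mul, map_pow, hu1, one_pow, one_mul, map_mul, map_pow, PowerSeries.constantCoeff_X,
    zero_pow (by omega), zero_mul] at h4
  have h5 : PowerSeries.constantCoeff (aeval u Q) = Q.coeff 0 :=
    Run7.h709.OD.constantCoeff_ph (h0 := Run7.h709.OD.cc_u theta_holds) Q
  rw [h5] at h4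
  exact hQ2 (X_dvd_iff.2 h4)

lemma natDegree_st {N κ D : ℕ} {R : ℚ[X]} (hN : 1 ≤ N) (hd : R.natDegree ≤ 2 * N + 1)
    {P : ℕ → ℕ → ℚ[X]} (hP : ∀ k b, (P k b).natDegree ≤ D) (k b : ℕ) :
    (st N κ R P k b).natDegree ≤ D + (2 * N + 4) := by
  have hpp : pp.natDegree ≤ 3 := by
    unfold pp
    compute_degree
  have heta : eta.natDegree ≤ 4 := by
    unfold eta
    compute_degree
  have e1 : (pp * derivative (P k b)).natDegree ≤ D + (2 * N + 4) := by
    refine natDegree_mul_le.trans ?_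
    have h1 := natDegree_derivative_le (P k b)
    have h2 := hP k b
    omega
  have e2 : (if b = 0 then 0 else ((κ + 1 - N * k - b : ℕ) : ℚ[X]) * P k (b - 1)).natDegree ≤
      D + (2 * N + 4) := by
    split_ifs
    · simp
    · refine natDegree_mul_le.trans ?_
      have := hP k (b - 1)
      rw [natDegree_natCast]
      omega
  have e3 : (((b + 1 : ℕ) : ℚ[X]) * eta * P k (b + 1)).natDegree ≤ D + (2 * N + 4) := by
    refine natDegree_mul_le.trans ?_
    have h1 : (((b + 1 : ℕ) : ℚ[X]) * eta).natDegree ≤ 4 := by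
      refine natDegree_mul_le.trans ?_
      rw [natDegree_natCast]; omega
    have h2 := hP k (b + 1)
    omega
  have e4 : (((k + 1 : ℕ) : ℚ[X]) * R * P (k + 1) b).natDegree ≤ D + (2 * N + 4) := by
    refine natDegree_mul_le.trans ?_
    have h1 : (((k + 1 : ℕ) : ℚ[X]) * R).natDegree ≤ 2 * N + 1 := by
      refine natDegree_mul_le.trans ?_
      rw [natDegree_natCast]; omega
    have h2 := hP (k + 1) b
    omega
  unfold st
  exact (natDegree_add_le _ _).trans (max_le ((natDegree_add_le _ _).trans (max_le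
    ((natDegree_add_le _ _).trans (max_le e1 e2)) e3)) e4)

end H809.OD.Inst
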