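import Pool.Agent.Run7.h809.OD.FR
import Pool.Agent.Run7.h709.OD.Ind

/-!
# The fields `ℚ(u)` and `ℚ((q))` with their derivations
-/

set_option autoImplicit false
set_option linter.unusedSectionVars false

open Differential
open scoped Differential

namespace H809.OD.Inst

/-! ### Extension of a derivation to the field of fractions -/

section ext

variable {A K : Type*} [CommRing A] [IsDomain A] [Field K] [Algebra A K] [IsFractionRing A K]

/-- ring map `a ↦ a + ε d(a)` -/
noncomputable def eHom (d : Derivation ℤ A A) : A →+* TrivSqZeroExt K K where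
  toFun a := (algebraMap A K a, algebraMap A K (d a))
  map_one' := by
    ext
    · exact map_one _
    · change algebraMap A K (d 1) = 0
      rw [Derivation.map_one_eq_zero, map_zero]
  map_mul' a b := by
    ext
    · exact map_mul _ _ _
    · change algebraMap A K (d (a * b)) = algebraMap A K a * algebraMap A K (d b) +
        algebraMap A K (d a) * algebraMap A K b
      rw [Derivation.leibniz, map_add, smul_eq_mul, smul_eq_mul, map_mul, map_mul,
        mul_comm (algebraMap A K b)]
  map_zero' := by
    ext
    · exact map_zero _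
    · change algebraMap A K (d 0) = 0
      rw [map_zero, map_zero]
  map_add' a b := by
    ext
    · exact map_add _ _ _
    · change algebraMap A K (d (a + b)) = algebraMap A K (d a) + algebraMap A K (d b)
      rw [map_add, map_add]

theorem eHom_unit (d : Derivation ℤ A A) (y : nonZeroDivisors A) :
    IsUnit (eHom (K := K) d y) := by
  rw [TrivSqZeroExt.isUnit_iff_isUnit_fst]
  change IsUnit (algebraMap A K y)
  exact IsLocalization.map_units K y

noncomputable def eLift (d : Derivation ℤ A A) : K →+* TrivSqZeroExt K K :=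
  IsLocalization.lift (M := nonZeroDivisors A) (g := eHom (K := K) d) (eHom_unit d)

theorem eLift_alg (d : Derivation ℤ A A) (a : A) :
    eLift d (algebraMap A K a) = eHom (K := K) d a := IsLocalization.lift_eq _ _

theorem eLift_fst (d : Derivation ℤ A A) (z : K) : (eLift d z).fst = z := by
  have h : (TrivSqZeroExt.fstHom K K K : TrivSqZeroExt K K →+* K).comp (eLift d)
      = RingHom.id K := by
    apply IsLocalization.ringHom_ext (nonZeroDivisors A)
    ext a
    change (eLift d (algebraMap A K a)).fst = algebraMap A K a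
    rw [eLift_alg]; rfl
  exact RingHom.congr_fun h z

/-- Extension of a derivation to the fraction field. -/
noncomputable def extDer (d : Derivation ℤ A A) : Derivation ℤ K K :=
  Derivation.mk'
    (AddMonoidHom.toIntLinearMap
    { toFun := fun z => (eLift d z).snd
      map_zero' := by rw [map_zero]; rfl
      map_add' := fun z w => by rw [map_add]; rfl })
    (fun a b => by
      change (eLift d (a * b)).snd = a • (eLift d b).snd + b • (eLift d a).snd
      rw [map_mul, TrivSqZeroExt.snd_mul, eLift_fst, eLift_fst, op_smul_eq_smul])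

theorem extDer_alg (d : Derivation ℤ A A) (a : A) :
    extDer (K := K) d (algebraMap A K a) = algebraMap A K (d a) := by
  change (eLift d (algebraMap A K a)).snd = _
  rw [eLift_alg]; rfl

end ext

/-! ### The field `ℚ(u)` -/

/-- the field of rational functions -/
def Kf : Type := FractionRing (Polynomial ℚ)

noncomputable instance : Field Kf := inferInstanceAs (Field (FractionRing (Polynomial ℚ)))

noncomputable instance : Algebra (Polynomial ℚ) Kf :=
  inferInstanceAs (Algebra (Polynomial ℚ) (FractionRing (Polynomial ℚ)))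

instance : IsFractionRing (Polynomial ℚ) Kf :=
  inferInstanceAs (IsFractionRing (Polynomial ℚ) (FractionRing (Polynomial ℚ)))

instance : CharZero Kf := charZero_of_injective_algebraMap
  (IsFractionRing.injective (Polynomial ℚ) Kf)

/-- `p d/du` -/
noncomputable def dP : Derivation ℤ (Polynomial ℚ) (Polynomial ℚ) :=
  (pp • (Polynomial.derivative' : Derivation ℚ _ _)).restrictScalars ℤ

lemma dP_apply (P : Polynomial ℚ) : dP P = pp * Polynomial.derivative P := rfl

noncomputable instance : Differential Kf := ⟨extDer dP⟩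

lemma deriv_Kf (P : Polynomial ℚ) : (algebraMap (Polynomial ℚ) Kf P)′ =
    algebraMap (Polynomial ℚ) Kf (pp * Polynomial.derivative P) := extDer_alg dP P

/-! ### The field `ℚ((q))` -/

/-- Laurent series -/
def Lf : Type := LaurentSeries ℚ

noncomputable instance : Field Lf := inferInstanceAs (Field (LaurentSeries ℚ))

/-- power series in Laurent series -/
noncomputable def io : PowerSeries ℚ →+* Lf := HahnSeries.ofPowerSeries ℤ ℚ

lemma io_inj : Function.Injective io := HahnSeries.ofPowerSeries_injective

instance : CharZero Lf := charZero_of_injective_ringHom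
  (f := (io.comp (PowerSeries.C (R := ℚ)))) (io_inj.comp PowerSeries.C_injective)

/-- coefficients of Laurent series -/
noncomputable def co (a : Lf) (m : ℤ) : ℚ := HahnSeries.coeff (R := ℚ) (Γ := ℤ) a m

lemma co_ext {a b : Lf} (h : ∀ m, co a m = co b m) : a = b := HahnSeries.ext (funext h)

/-- the Euler operator on Laurent series -/
noncomputable def E0 (a : LaurentSeries ℚ) : LaurentSeries ℚ :=
  ⟨fun m => (m : ℚ) * a.coeff m, a.isPWO_support.mono (by
    intro m hm
    simp only [Function.mem_support, ne_eq] at hm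
    simp only [HahnSeries.mem_support, ne_eq]
    intro h
    exact hm (by rw [h, mul_zero]))⟩

lemma E0_coeff (a : LaurentSeries ℚ) (m : ℤ) : (E0 a).coeff m = (m : ℚ) * a.coeff m := rfl

lemma E0_supp (a : LaurentSeries ℚ) : (E0 a).support ⊆ a.support := by
  intro m hm
  simp only [HahnSeries.mem_support, ne_eq, E0_coeff] at hm ⊢
  intro h
  exact hm (by rw [h, mul_zero])

lemma E0_mul (a b : LaurentSeries ℚ) : E0 (a * b) = a * E0 b + b * E0 a := by
  ext m
  rw [E0_coeff, HahnSeries.coeff_add, mul_comm b (E0 a),
    HahnSeries.coeff_mul_right' b.isPWO_support (E0_supp b),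
    HahnSeries.coeff_mul_left' a.isPWO_support (E0_supp a), HahnSeries.coeff_mul,
    ← Finset.sum_add_distrib, Finset.mul_sum]
  refine Finset.sum_congr rfl fun ij hij => ?_
  have h : ij.1 + ij.2 = m := (Finset.mem_antidiagonal.1 hij).2.2
  rw [E0_coeff, E0_coeff, ← h]
  push_cast
  ring

lemma E0_add (a b : LaurentSeries ℚ) : E0 (a + b) = E0 a + E0 b := by
  ext m
  simp only [E0_coeff, HahnSeries.coeff_add]
  ring

/-- the Euler derivation -/
noncomputable def EL : Derivation ℤ Lf Lf :=
  Derivation.mk' (AddMonoidHom.toIntLinearMap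
    { toFun := E0
      map_zero' := by
        apply HahnSeries.ext
        funext m
        exact mul_zero _
      map_add' := E0_add })
    (fun a b => E0_mul a b)

lemma co_EL (a : Lf) (m : ℤ) : co (EL a) m = (m : ℚ) * co a m := rfl

lemma co_io (f : PowerSeries ℚ) (m : ℤ) :
    co (io f) m = if m < 0 then 0 else PowerSeries.coeff m.natAbs f := by
  exact PowerSeries.coeff_coe f m

lemma coeff_th' (f : PowerSeries ℚ) (n : ℕ) :
    PowerSeries.coeff n (th f) = n * PowerSeries.coeff n f := by
  rcases n with _ | n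
  · simp [th]
  · simp only [th, Derivation.coe_smul, Pi.smul_apply, smul_eq_mul]
    rw [PowerSeries.coeff_succ_X_mul, PowerSeries.coeff_derivative]
    push_cast
    ring

lemma EL_io (f : PowerSeries ℚ) : EL (io f) = io (th f) := by
  apply co_ext
  intro m
  rw [co_EL, co_io, co_io]
  split_ifs with h
  · simp
  · rw [coeff_th']
    have : ((m.natAbs : ℕ) : ℚ) = m := by
      rw [Nat.cast_natAbs, abs_of_nonneg (by omega)]
    rw [this]

noncomputable instance : Differential Lf := ⟨(io w ^ 2)⁻¹ • EL⟩

lemma deriv_Lf (a : Lf) : a′ = (io w ^ 2)⁻¹ * EL a := rfl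

variable (h : Theta)

include h

lemma io_w_ne : io w ≠ 0 := fun h0 => Run7.h709.OD.w_ne h (io_inj (by rw [h0, map_zero]))

lemma deriv_io (f g : PowerSeries ℚ) (hfg : th f = w ^ 2 * g) : (io f)′ = io g := by
  rw [deriv_Lf, EL_io, hfg, map_mul, map_pow]
  have := io_w_ne h
  field_simp

/-- `ℚ(u) → ℚ((q))` -/
noncomputable def iK : Kf →+* Lf :=
  IsFractionRing.lift (A := Polynomial ℚ) (K := Kf) (L := Lf)
    (g := io.comp (Run7.h709.OD.ph : Polynomial ℚ →ₐ[ℚ] PowerSeries ℚ).toRingHom)
    (io_inj.comp fun P Q => Run7.h709.OD.ph_inj h P Q)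

lemma iK_alg (P : Polynomial ℚ) :
    iK h (algebraMap (Polynomial ℚ) Kf P) = io (Polynomial.aeval u P) :=
  IsFractionRing.lift_algebraMap _ _

lemma iK_deriv (a : Kf) : (iK h a)′ = iK h a′ := by
  obtain ⟨P, Q, hQ, rfl⟩ := IsFractionRing.div_surjective (Polynomial ℚ) a
  have h1 : ∀ P : Polynomial ℚ, (iK h (algebraMap (Polynomial ℚ) Kf P))′ =
      iK h (algebraMap (Polynomial ℚ) Kf P)′ := by
    intro P
    rw [deriv_Kf, iK_alg, iK_alg]
    exact deriv_io h _ _ (Run7.h709.OD.th_ph h P)
  have hQ0 : algebraMap (Polynomial ℚ) Kf Q ≠ 0 :=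
    IsLocalization.to_map_ne_zero_of_mem_nonZeroDivisors _ le_rfl hQ
  rw [map_div₀, Derivation.leibniz_div, Derivation.leibniz_div, h1, h1]
  simp only [smul_eq_mul, map_mul, map_sub, map_pow, map_inv₀]

lemma const_Lf (x : Lf) (hx : x′ = 0) : ∃ c : ℚ, x = (c : Lf) := by
  have h1 : EL x = 0 := by
    rw [deriv_Lf] at hx
    exact (mul_eq_zero.1 hx).resolve_left (inv_ne_zero (pow_ne_zero 2 (io_w_ne h)))
  refine ⟨co x 0, ?_⟩
  have h2 : ((co x 0 : ℚ) : Lf) = io (PowerSeries.C (co x 0)) := by
    rw [← RingHom.comp_apply]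
    exact (map_ratCast (io.comp (PowerSeries.C (R := ℚ))) (co x 0)).symm
  rw [h2]
  apply co_ext
  intro m
  rw [co_io]
  have h3 : co (EL x) m = 0 := by rw [h1]; rfl
  rw [co_EL] at h3
  by_cases hm : m = 0
  · subst hm; simp
  · have h4 : co x m = 0 := (mul_eq_zero.1 h3).resolve_left (by exact_mod_cast hm)
    rw [h4]
    split_ifs with h5
    · rfl
    · rw [PowerSeries.coeff_C, if_neg (by omega)]

lemma log_Lf (x : Lf) (c : ℚ) (hx : io w ^ 2 * x′ = (c : Lf)) : c = 0 := by
  have h1 : EL x = (c : Lf) := by
    rw [deriv_Lf] at hx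
    have := io_w_ne h
    rw [← hx]
    field_simp
  have h2 : ((c : ℚ) : Lf) = io (PowerSeries.C c) := by
    rw [← RingHom.comp_apply]
    exact (map_ratCast (io.comp (PowerSeries.C (R := ℚ))) c).symm
  have h3 := congrArg (fun y => co y 0) h1
  simp only [co_EL, h2, co_io] at h3
  simpa using h3.symm

/-- a common denominator for the coefficients of a polynomial -/
lemma exists_denom (n : ℕ) (g : ℕ → Kf) : ∃ (Q : Polynomial ℚ) (c : ℕ → Polynomial ℚ), Q ≠ 0 ∧
    ∀ i < n, algebraMap (Polynomial ℚ) Kf Q * g i = algebraMap (Polynomial ℚ) Kf (c i) := by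
  induction n with
  | zero => exact ⟨1, fun _ => 0, one_ne_zero, fun i hi => absurd hi (Nat.not_lt_zero i)⟩
  | succ n ih =>
    obtain ⟨Q, c, hQ, hc⟩ := ih
    obtain ⟨P, T, hT, hPT⟩ := IsFractionRing.div_surjective (Polynomial ℚ) (g n)
    have hT0 : T ≠ 0 := nonZeroDivisors.ne_zero hT
    have hT1 : algebraMap (Polynomial ℚ) Kf T ≠ 0 :=
      IsLocalization.to_map_ne_zero_of_mem_nonZeroDivisors _ le_rfl hT
    refine ⟨Q * T, fun i => if i = n then Q * P else T * c i, mul_ne_zero hQ hT0, fun i hi => ?_⟩
    by_cases hin : i = n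
    · subst hin
      simp only [if_true]
      rw [← hPT, map_mul, map_mul]
      field_simp
    · simp only [if_neg hin]
      rw [map_mul, map_mul, ← hc i (by omega)]
      ring

end H809.OD.Inst
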