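import Pool.Agent.Run7.h809.OD.Kry
import Pool.Agent.Run7.h809.OD.Inst
import Pool.Agent.Run7.h600.OD.Theta

/-!
# The zero estimate
-/

set_option autoImplicit false
set_option linter.unusedSectionVars false

open Polynomial Differential
open scoped Differential

namespace H809.OD.Inst

open H809.OD.Abs

noncomputable instance : Algebra Kf Lf := (iK theta_holds).toAlgebra

/-- `ℚ[X] → Kf` -/
noncomputable abbrev al : ℚ[X] →+* Kf := algebraMap ℚ[X] Kf

lemma al_inj : Function.Injective al := IsFractionRing.injective ℚ[X] Kf

lemma am_al (P : ℚ[X]) : algebraMap Kf Lf (al P) = io (aeval u P) := iK_alg theta_holds P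

instance : DifferentialAlgebra Kf Lf := ⟨iK_deriv theta_holds⟩

lemma w_wi : w * wi = 1 := Run7.h709.OD.w_mul_wi theta_holds

lemma io_w_wi : io w * io wi = 1 := by rw [← map_mul, w_wi, map_one]

lemma io_w0 : io w ≠ 0 := io_w_ne theta_holds

/-- the system attached to the theta functions -/
noncomputable def sys (hi : S_Ind) : Sys Kf Lf where
  w := io w
  ζ := io zt
  η := al eta
  w_ne := io_w0
  dw := by
    rw [← map_mul]
    refine deriv_io theta_holds _ _ ?_
    rw [Run7.h709.OD.th_w theta_holds]
    ring
  dζ := by
    rw [am_al, ← map_pow, ← map_sub]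
    refine deriv_io theta_holds _ _ ?_
    rw [theta_holds.th_zt, eta]
    simp only [map_mul, map_sub, map_one, aeval_X, map_ofNat, map_pow]
  const := const_Lf theta_holds
  log := log_Lf theta_holds
  tr := by
    intro g hg
    obtain ⟨Q, c, hQ, hc⟩ := exists_denom theta_holds (n := g.natDegree + 1) g.coeff
    have hQ1 : algebraMap Kf Lf (al Q) ≠ 0 := by
      rw [am_al]
      intro h0
      have := io_inj (h0.trans (map_zero io).symm)
      exact Run7.h709.OD.ph_ne theta_holds Q hQ this
    have h1 : io (∑ b ∈ Finset.range (g.natDegree + 1), aeval u (c b) * zt ^ b) = 0 := by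
      have h2 : algebraMap Kf Lf (al Q) * aeval (io zt) g = 0 := by rw [hg, mul_zero]
      rw [aeval_eq_sum_range, Finset.mul_sum] at h2
      rw [map_sum, ← h2]
      refine Finset.sum_congr rfl fun i hi => ?_
      rw [Algebra.smul_def, ← mul_assoc, ← map_mul, hc i (Finset.mem_range.1 hi), am_al, map_mul,
        map_pow]
    have h3 := hi _ c (io_inj (h1.trans (map_zero io).symm))
    ext i
    rw [coeff_zero]
    by_cases h4 : i < g.natDegree + 1
    · have h5 := hc i h4
      rw [h3 i h4, map_zero] at h5
      refine (mul_eq_zero.1 h5).resolve_left ?_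
      intro h6
      exact hQ (al_inj (h6.trans (map_zero _).symm))
    · exact coeff_eq_zero_of_natDegree_lt (by omega)

lemma deriv_al (P : ℚ[X]) : (al P)′ = al (pp * derivative P) := deriv_Kf P

/-- no rational solutions -/
lemma hrat (hi : S_Ind) (hr : S_Rat) (N : ℕ) (R : ℚ[X]) (hN : 1 ≤ N) (hR : R ≠ 0)
    (hd : R.natDegree ≤ 2 * N + 1) (c : ℚ) (G : Kf[X]) (hc : c ≠ 0) (hG : G.natDegree ≤ N) :
    nab (sys hi) N G ≠ C ((c : Kf) * al R) := by
  intro heq
  obtain ⟨B, A0, hB, hA0⟩ := exists_denom theta_holds (n := N + 1) G.coeff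
  set A : ℕ → ℚ[X] := fun i => if i ≤ N then A0 i else 0 with hA
  have hAi : ∀ i, al B * G.coeff i = al (A i) := by
    intro i
    simp only [hA]
    split_ifs with h
    · exact hA0 i (by omega)
    · rw [coeff_eq_zero_of_natDegree_lt (by omega), mul_zero, map_zero]
  have hc' : (c : Kf) = al (C c) := (map_ratCast (al.comp C) c).symm
  refine hr N (C c * R) B A hN (mul_ne_zero (by simpa using hc) hR) ?_ hB ?_ ?_
  · rw [natDegree_C_mul hc]; exact hd
  · intro i hi
    simp only [hA]
    rw [if_neg (by omega)]
  · intro i hiN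
    apply al_inj
    have hder : al B ^ 2 * (G.coeff i)′ = al (pp * (derivative (A i) * B - A i * derivative B)) := by
      have h1 := congrArg (fun x : Kf => x′) (hAi i)
      simp only [Derivation.leibniz, smul_eq_mul] at h1
      rw [deriv_al, deriv_al] at h1
      have h2 := hAi i
      simp only [map_mul, map_sub] at h1 ⊢
      linear_combination (al B) * h1 - al pp * al (derivative B) * h2
    rcases i with _ | i
    · have h1 := congrArg (fun P : Kf[X] => P.coeff 0) heq
      simp only [coeff_C_zero] at h1
      rw [coeff_nab_zero] at h1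
      simp only [if_true, zero_add, Nat.cast_one, one_mul, add_zero]
      rw [map_add, ← hder]
      simp only [map_mul, map_pow]
      rw [← hAi 1, ← hc']
      have h3 : (sys hi).η = al eta := rfl
      rw [h3] at h1
      linear_combination (al B) ^ 2 * h1
    · have h1 := congrArg (fun P : Kf[X] => P.coeff (i + 1)) heq
      beta_reduce at h1
      rw [coeff_nab_succ, coeff_C_succ] at h1
      rw [if_neg (Nat.succ_ne_zero i), if_neg (Nat.succ_ne_zero i), Nat.add_sub_cancel]
      rw [map_add, map_add, ← hder]
      simp only [map_mul, map_natCast, map_zero]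
      rw [← hAi (i + 1 + 1), ← hAi i]
      have h3 : (sys hi).η = al eta := rfl
      rw [h3] at h1
      have h4 : ((N + 1 - (i + 1) : ℕ) : Kf) = (N : Kf) - i := by
        rw [Nat.cast_sub (by omega)]; push_cast; ring
      rw [h4]
      push_cast
      linear_combination (al B) ^ 2 * h1

end H809.OD.Inst
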