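import Mathlib

/-!
# The differential module of a second order equation: relations between the functionals `H_s`
-/

set_option autoImplicit false
set_option linter.unusedSectionVars false

open Polynomial Differential
open scoped Differential

namespace H809.OD.Abs

variable {K L : Type} [Field K] [Field L] [CharZero K] [CharZero L] [Differential K]
  [Differential L] [Algebra K L] [DifferentialAlgebra K L]

variable (K L) in
/-- The data: `w' = ζ w`, `ζ' = η - ζ²` (so `w'' = η w`), the constants of `L` are rational, the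
equation `w² x' = c` has no solution for `c ≠ 0` and `ζ` is transcendental over `K`. -/
structure Sys where
  w : L
  ζ : L
  η : K
  w_ne : w ≠ 0
  dw : w′ = ζ * w
  dζ : ζ′ = algebraMap K L η - ζ ^ 2
  const : ∀ x : L, x′ = 0 → ∃ c : ℚ, x = (c : L)
  log : ∀ (x : L) (c : ℚ), w ^ 2 * x′ = (c : L) → c = 0
  tr : ∀ g : K[X], aeval ζ g = 0 → g = 0

/-- chain rule for the Taylor shift -/
lemma mapCoeffs_taylor (ζ : L) (G : L[X]) :
    mapCoeffs (taylor ζ G) = taylor ζ (mapCoeffs G) + C ζ′ * derivative (taylor ζ G) := by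
  induction G using Polynomial.induction_on' with
  | add p q hp hq =>
    simp only [map_add, hp, hq, mul_add]
    ring
  | monomial n a =>
    rw [taylor_monomial, mapCoeffs_monomial, taylor_monomial, Derivation.leibniz,
      mapCoeffs_C, Derivation.leibniz_pow, map_add, mapCoeffs_X, mapCoeffs_C, derivative_C_mul,
      derivative_X_add_C_pow]
    simp only [smul_eq_mul, nsmul_eq_mul, zero_add]
    simp
    ring

variable (S : Sys K L)

/-- the connection on polynomials in `ζ` of weight `n` -/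
noncomputable def nab (n : ℕ) (g : K[X]) : K[X] :=
  mapCoeffs g + (C S.η - X ^ 2) * derivative g + (n : K[X]) * X * g

/-- Taylor expansion of `g` at `ζ` -/
noncomputable def T (g : K[X]) : L[X] := taylor S.ζ (g.map (algebraMap K L))

lemma map_mapCoeffs (g : K[X]) :
    (mapCoeffs g).map (algebraMap K L) = mapCoeffs (g.map (algebraMap K L)) := by
  ext i
  simp [coeff_map, deriv_algebraMap]

lemma T_nab (n : ℕ) (g : K[X]) :
    T S (nab S n g) = mapCoeffs (T S g) + (n : L[X]) * (X + C S.ζ) * T S g -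
      (2 * C S.ζ * X + X ^ 2) * derivative (T S g) := by
  have h1 := mapCoeffs_taylor S.ζ (g.map (algebraMap K L))
  have h2 : T S (nab S n g) = taylor S.ζ (mapCoeffs (g.map (algebraMap K L))) +
      (C (algebraMap K L S.η) - (X + C S.ζ) ^ 2) * derivative (T S g) +
      (n : L[X]) * (X + C S.ζ) * T S g := by
    unfold T nab
    simp only [Polynomial.map_add, Polynomial.map_sub, Polynomial.map_mul, Polynomial.map_pow,
      Polynomial.map_natCast, map_C, map_X, ← derivative_map, map_mapCoeffs, map_add,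
      taylor_mul, map_sub, taylor_C, taylor_X, taylor_pow]
    have h3 : taylor S.ζ (derivative (g.map (algebraMap K L))) =
        derivative (taylor S.ζ (g.map (algebraMap K L))) := by
      rw [taylor_apply, taylor_apply, derivative_comp]
      simp
    have h4 : taylor S.ζ ((n : L[X])) = (n : L[X]) := by
      rw [taylor_apply]; simp
    rw [h3, h4]
  rw [h2, T, h1, S.dζ, C_sub, C_pow]
  ring

/-- the functionals `H_s(g) = w^(n-2s) g^[s](ζ)` -/
noncomputable def H (n s : ℕ) (g : K[X]) : L := S.w ^ n * ((S.w ^ 2)⁻¹) ^ s * (T S g).coeff s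

lemma dwi : ((S.w ^ 2)⁻¹)′ = -2 * S.ζ * (S.w ^ 2)⁻¹ := by
  have h := S.w_ne
  have h1 : (S.w ^ 2 * (S.w ^ 2)⁻¹)′ = 0 := by
    rw [mul_inv_cancel₀ (pow_ne_zero 2 h)]
    simp
  rw [Derivation.leibniz, Derivation.leibniz_pow, S.dw] at h1
  simp only [smul_eq_mul, nsmul_eq_mul] at h1
  have h2 : S.w ^ 2 ≠ 0 := pow_ne_zero 2 h
  have h3 : S.w ^ 2 * ((S.w ^ 2)⁻¹)′ = S.w ^ 2 * (-2 * S.ζ * (S.w ^ 2)⁻¹) := by
    have h4 : S.w ^ 2 * (S.w ^ 2)⁻¹ = 1 := mul_inv_cancel₀ h2
    push_cast at h1
    linear_combination h1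
  exact mul_left_cancel₀ h2 h3

lemma dpre (n s : ℕ) : (S.w ^ n * ((S.w ^ 2)⁻¹) ^ s)′ =
    ((n : L) - 2 * s) * S.ζ * (S.w ^ n * ((S.w ^ 2)⁻¹) ^ s) := by
  have h1 : (S.w ^ n)′ = n * S.ζ * S.w ^ n := by
    rw [Derivation.leibniz_pow, S.dw]
    simp only [smul_eq_mul, nsmul_eq_mul]
    rcases n with _ | n
    · simp
    · rw [Nat.add_sub_cancel]; ring
  have h2 : (((S.w ^ 2)⁻¹) ^ s)′ = -2 * s * S.ζ * ((S.w ^ 2)⁻¹) ^ s := by
    rw [Derivation.leibniz_pow, dwi]
    simp only [smul_eq_mul, nsmul_eq_mul]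
    rcases s with _ | s
    · simp
    · rw [Nat.add_sub_cancel]; ring
  rw [Derivation.leibniz, h1, h2]
  simp only [smul_eq_mul]
  ring

lemma H_nab_zero (n : ℕ) (g : K[X]) : H S n 0 (nab S n g) = (H S n 0 g)′ := by
  have h1 := congrArg (fun P => P.coeff 0) (T_nab S n g)
  simp only [coeff_sub, coeff_add, coeff_mapCoeffs] at h1
  unfold H
  rw [h1, Derivation.leibniz, dpre]
  simp only [smul_eq_mul, Nat.cast_zero, mul_zero, sub_zero]
  have h2 : ((n : L[X]) * (X + C S.ζ) * T S g).coeff 0 = n * S.ζ * (T S g).coeff 0 := by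
    simp [mul_coeff_zero]
  have h3 : ((2 * C S.ζ * X + X ^ 2) * derivative (T S g)).coeff 0 = 0 := by
    simp [mul_coeff_zero]
  rw [h2, h3]
  ring

lemma H_nab_succ (n s : ℕ) (g : K[X]) : H S n (s + 1) (nab S n g) =
    (H S n (s + 1) g)′ + ((n : L) - s) * (S.w ^ 2)⁻¹ * H S n s g := by
  have h1 := congrArg (fun P => P.coeff (s + 1)) (T_nab S n g)
  simp only [coeff_sub, coeff_add, coeff_mapCoeffs] at h1
  unfold H
  rw [h1, Derivation.leibniz, dpre]
  simp only [smul_eq_mul]
  have h2 : ((n : L[X]) * (X + C S.ζ) * T S g).coeff (s + 1) =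
      n * (T S g).coeff s + n * S.ζ * (T S g).coeff (s + 1) := by
    have : (n : L[X]) * (X + C S.ζ) * T S g = C (n : L) * (X * T S g) +
        C (n * S.ζ) * T S g := by
      simp only [C_mul, map_natCast]; ring
    rw [this, coeff_add, coeff_C_mul, coeff_X_mul, coeff_C_mul]
  have h3 : ((2 * C S.ζ * X + X ^ 2) * derivative (T S g)).coeff (s + 1) =
      2 * S.ζ * ((s + 1) * (T S g).coeff (s + 1)) + s * (T S g).coeff s := by
    have : (2 * C S.ζ * X + X ^ 2) * derivative (T S g) =
        C (2 * S.ζ) * (X * derivative (T S g)) + X * (X * derivative (T S g)) := by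
      simp only [C_mul, map_ofNat]; ring
    rw [this, coeff_add, coeff_C_mul, coeff_X_mul, coeff_X_mul, coeff_derivative]
    rcases s with _ | s
    · simp
    · rw [coeff_X_mul, coeff_derivative]; push_cast; ring
  rw [h2, h3]
  push_cast
  ring

/-- **The minimal relation argument.** -/
theorem min_rel {M : Type*} (N : M → M) (n : ℕ) (f : ℕ → M → L) (α : ℕ → ℚ)
    (hα : ∀ s < n, α s ≠ 0) (h0 : ∀ c, f 0 (N c) = (f 0 c)′)
    (hs : ∀ s < n, ∀ c, f (s + 1) (N c) = (f (s + 1) c)′ + (α s : L) * (S.w ^ 2)⁻¹ * f s c) :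
    ∀ r ≤ n, ∀ g : ℕ → L, g r ≠ 0 → (∀ c, ∑ s ∈ Finset.range (r + 1), g s * f s c = 0) →
    ∀ c, f 0 c = 0 := by
  intro r
  induction r with
  | zero =>
    intro _ g hg h c
    have h1 := h c
    simp only [zero_add, Finset.range_one, Finset.sum_singleton] at h1
    exact (mul_eq_zero.1 h1).resolve_left hg
  | succ r ih =>
    intro hr g hg h
    set g1 : ℕ → L := fun s => g s / g (r + 1) with hg1
    have h1 : ∀ c, ∑ s ∈ Finset.range (r + 2), g1 s * f s c = 0 := by
      intro c
      have := h c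
      have h2 : ∑ s ∈ Finset.range (r + 2), g1 s * f s c =
          (g (r + 1))⁻¹ * ∑ s ∈ Finset.range (r + 1 + 1), g s * f s c := by
        rw [Finset.mul_sum]
        refine Finset.sum_congr rfl fun s _ => ?_
        simp only [hg1, div_eq_mul_inv]; ring
      rw [h2, this, mul_zero]
    have h1top : g1 (r + 1) = 1 := div_self hg
    set g2 : ℕ → L := fun s => (α s : L) * (S.w ^ 2)⁻¹ * g1 (s + 1) - (g1 s)′ with hg2
    refine ih (by omega) g2 ?_ ?_
    · intro h3
      simp only [hg2, h1top, mul_one] at h3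
      have h4 : S.w ^ 2 * (g1 r)′ = ((α r : ℚ) : L) := by
        have h5 : (g1 r)′ = (α r : L) * (S.w ^ 2)⁻¹ := (sub_eq_zero.1 h3).symm
        rw [h5]
        field_simp [S.w_ne]
      exact hα r (by omega) (S.log _ _ h4)
    · intro c
      have h3 := h1 (N c)
      have h4 := congrArg (fun x : L => x′) (h1 c)
      simp only [map_sum, Derivation.leibniz, smul_eq_mul, map_zero] at h4
      rw [Finset.sum_range_succ'] at h3
      have h5 : ∑ s ∈ Finset.range (r + 1), g1 (s + 1) * f (s + 1) (N c) =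
          ∑ s ∈ Finset.range (r + 1), (g1 (s + 1) * (f (s + 1) c)′ +
            (α s : L) * (S.w ^ 2)⁻¹ * g1 (s + 1) * f s c) := by
        refine Finset.sum_congr rfl fun s hsr => ?_
        rw [hs s (by have := Finset.mem_range.1 hsr; omega)]
        ring
      rw [h5, h0] at h3
      have h6 : ∑ s ∈ Finset.range (r + 2), (g1 s * (f s c)′ + f s c * (g1 s)′) =
          ∑ s ∈ Finset.range (r + 1), g1 (s + 1) * (f (s + 1) c)′ + g1 0 * (f 0 c)′ +
          ∑ s ∈ Finset.range (r + 1), f s c * (g1 s)′ := by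
        rw [Finset.sum_add_distrib, Finset.sum_range_succ' (fun s => g1 s * (f s c)′),
          Finset.sum_range_succ (fun s => f s c * (g1 s)′), h1top]
        simp
      rw [h6] at h4
      rw [Finset.sum_add_distrib] at h3
      have h7 : ∑ s ∈ Finset.range (r + 1), g2 s * f s c =
          ∑ s ∈ Finset.range (r + 1), (α s : L) * (S.w ^ 2)⁻¹ * g1 (s + 1) * f s c -
          ∑ s ∈ Finset.range (r + 1), f s c * (g1 s)′ := by
        rw [← Finset.sum_sub_distrib]
        refine Finset.sum_congr rfl fun s _ => ?_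
        simp only [hg2]; ring
      rw [h7]
      linear_combination h3 - h4

theorem min_rel' {M : Type*} (N : M → M) (n : ℕ) (f : ℕ → M → L) (α : ℕ → ℚ)
    (hα : ∀ s < n, α s ≠ 0) (h0 : ∀ c, f 0 (N c) = (f 0 c)′)
    (hs : ∀ s < n, ∀ c, f (s + 1) (N c) = (f (s + 1) c)′ + (α s : L) * (S.w ^ 2)⁻¹ * f s c)
    (g : ℕ → L) (hg : ∃ i ≤ n, g i ≠ 0) (h : ∀ c, ∑ s ∈ Finset.range (n + 1), g s * f s c = 0) :
    ∀ c, f 0 c = 0 := by
  classical
  obtain ⟨i, hi, hgi⟩ := hg
  set r := Nat.findGreatest (fun i => g i ≠ 0) n with hr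
  have h1 : g r ≠ 0 := Nat.findGreatest_spec (P := fun i => g i ≠ 0) hi hgi
  have h2 : r ≤ n := Nat.findGreatest_le n
  have h3 : ∀ s, r < s → s ≤ n → g s = 0 := by
    intro s hs1 hs2
    by_contra h4
    exact Nat.findGreatest_is_greatest (P := fun i => g i ≠ 0) hs1 hs2 h4
  refine min_rel S N n f α hα h0 hs r h2 g h1 fun c => ?_
  rw [← h c]
  refine Finset.sum_subset (fun x hx => ?_) fun x hx hx' => ?_
  · rw [Finset.mem_range] at hx ⊢; omega
  · rw [Finset.mem_range] at hx hx'
    rw [h3 x (by omega) (by omega), zero_mul]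

/-- more functionals than the dimension are dependent -/
lemma exists_rel {n m : ℕ} (hm : m < n) (A : ℕ → ℕ → L) :
    ∃ g : ℕ → L, (∃ i < n, g i ≠ 0) ∧ ∀ j < m, ∑ i ∈ Finset.range n, g i * A i j = 0 := by
  let φ : (Fin n → L) →ₗ[L] (Fin m → L) := Matrix.vecMulLinear (Matrix.of fun i j => A i j)
  have h1 : LinearMap.ker φ ≠ ⊥ := by
    apply LinearMap.ker_ne_bot_of_finrank_lt
    simpa using hm
  obtain ⟨g, hg, hg0⟩ := (Submodule.ne_bot_iff _).1 h1
  refine ⟨fun i => if h : i < n then g ⟨i, h⟩ else 0, ?_, ?_⟩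
  · obtain ⟨i, hi⟩ := Function.ne_iff.1 hg0
    exact ⟨i, i.2, by simpa using hi⟩
  · intro j hj
    have h2 : φ g ⟨j, hj⟩ = 0 := by
      rw [LinearMap.mem_ker] at hg
      rw [hg]; rfl
    rw [Finset.sum_range]
    simp only [Fin.is_lt, dif_pos, Fin.eta]
    simpa [φ, Matrix.vecMul, dotProduct] using h2

lemma T_add (a b : K[X]) : T S (a + b) = T S a + T S b := by
  unfold T; rw [Polynomial.map_add, map_add]

lemma T_smul (a : K) (b : K[X]) : T S (a • b) = algebraMap K L a • T S b := by
  unfold T; rw [Polynomial.map_smul, map_smul]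

lemma H_add (n s : ℕ) (a b : K[X]) : H S n s (a + b) = H S n s a + H S n s b := by
  unfold H; rw [T_add, coeff_add]; ring

lemma H_smul (n s : ℕ) (a : K) (b : K[X]) : H S n s (a • b) = algebraMap K L a * H S n s b := by
  unfold H; rw [T_smul, coeff_smul, smul_eq_mul]; ring

/-- `H` as a linear map -/
noncomputable def HL (n s : ℕ) : K[X] →ₗ[K] L where
  toFun := H S n s
  map_add' := H_add S n s
  map_smul' a b := by rw [H_smul, RingHom.id_apply, Algebra.smul_def]

lemma H_zero_eq (n : ℕ) (g : K[X]) : H S n 0 g = S.w ^ n * aeval S.ζ g := by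
  unfold H T
  rw [pow_zero, mul_one, taylor_coeff_zero, eval_map_algebraMap]

lemma H_zero_ne (n : ℕ) (g : K[X]) (hg : H S n 0 g = 0) : g = 0 := by
  rw [H_zero_eq] at hg
  exact S.tr g ((mul_eq_zero.1 hg).resolve_left (pow_ne_zero n S.w_ne))

/-- **Irreducibility of the symmetric powers.** -/
theorem irr (n : ℕ) (U : Submodule K K[X]) (hdeg : ∀ g ∈ U, g.natDegree ≤ n)
    (hst : ∀ g ∈ U, nab S n g ∈ U) (hne : ∃ g ∈ U, g ≠ 0) :
    ∀ g : K[X], g.natDegree ≤ n → g ∈ U := by
  classical
  by_contra hcon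
  push Not at hcon
  obtain ⟨g0, hg0, hg0U⟩ := hcon
  have hle : U ≤ degreeLT K (n + 1) := fun g hg => by
    rw [mem_degreeLT]
    exact lt_of_le_of_lt degree_le_natDegree (by exact_mod_cast Nat.lt_succ_of_le (hdeg g hg))
  have hlt : U < degreeLT K (n + 1) := by
    refine lt_of_le_of_ne hle fun h => hg0U ?_
    rw [h, mem_degreeLT]
    exact lt_of_le_of_lt degree_le_natDegree (by exact_mod_cast Nat.lt_succ_of_le hg0)
  have hfin : FiniteDimensional K (degreeLT K (n + 1)) :=
    Module.Finite.of_basis (degreeLT.basis K (n + 1))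
  have hfr : Module.finrank K (degreeLT K (n + 1)) = n + 1 := by
    rw [Module.finrank_eq_card_basis (degreeLT.basis K (n + 1)), Fintype.card_fin]
  have hfinU : FiniteDimensional K U := Submodule.finiteDimensional_of_le hle
  have hm : Module.finrank K U < n + 1 := by
    rw [← hfr]
    exact Submodule.finrank_lt_finrank_of_lt hlt
  set m := Module.finrank K U with hmdef
  let b := Module.finBasis K U
  let bb : ℕ → K[X] := fun j => if h : j < m then ((b ⟨j, h⟩ : U) : K[X]) else 0
  obtain ⟨g, ⟨i, hi, hgi⟩, hg⟩ := exists_rel (L := L) hm (fun i j => H S n i (bb j))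
  have hrel : ∀ c : U, ∑ s ∈ Finset.range (n + 1), g s * H S n s c = 0 := by
    intro c
    have h1 : (c : K[X]) = ∑ j : Fin m, b.repr c j • ((b j : U) : K[X]) := by
      conv_lhs => rw [← b.sum_repr c]
      simp only [Submodule.coe_sum, Submodule.coe_smul]
      rfl
    have h2 : ∀ s, H S n s c = ∑ j : Fin m, algebraMap K L (b.repr c j) * H S n s (bb j) := by
      intro s
      have h3 : H S n s c = HL S n s c := rfl
      rw [h3, h1, map_sum]
      refine Finset.sum_congr rfl fun j _ => ?_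
      rw [map_smul, Algebra.smul_def]
      simp [bb, HL]
    simp only [h2, Finset.mul_sum]
    rw [Finset.sum_comm]
    refine Finset.sum_eq_zero fun j _ => ?_
    have h4 := hg j j.2
    have h5 : ∑ s ∈ Finset.range (n + 1), g s * (algebraMap K L (b.repr c j) * H S n s (bb j)) =
        algebraMap K L (b.repr c j) * ∑ s ∈ Finset.range (n + 1), g s * H S n s (bb j) := by
      rw [Finset.mul_sum]
      exact Finset.sum_congr rfl fun s _ => by ring
    rw [h5, h4, mul_zero]
  obtain ⟨c, hc, hc0⟩ := hne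
  have h0 := min_rel' S (M := U) (fun c => ⟨nab S n c, hst c c.2⟩) n (fun s c => H S n s c)
    (fun s => (n : ℚ) - s) (fun s hs => (sub_pos.2 (by exact_mod_cast hs : (s : ℚ) < n)).ne')
    (fun c => H_nab_zero S n c)
    (fun s _ c => by
      have := H_nab_succ S n s c
      push_cast
      exact this) g ⟨i, by omega, hgi⟩ hrel ⟨c, hc⟩
  exact hc0 (H_zero_ne S n c h0)

end H809.OD.Abs
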