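import Mathlib

/-!
# Ordinary primes for odd modular forms on `Γ₀(8)`: definitions

Everything happens in `ℚ⟦q⟧`. `φ = ∑_{n ∈ ℤ} q^(n²)`, `w = φ²`, `w⁻ = w(-q)`, `u = (w - w⁻)/(8 w)`,
`ζ = θ w / w³`, `θ = q d/dq`.
-/

set_option autoImplicit false

open PowerSeries

namespace H809.OD

/-- `φ = ∑_{n ∈ ℤ} q^(n²)` -/
noncomputable def phi : ℚ⟦X⟧ :=
  PowerSeries.mk fun n => if n = 0 then 1 else if IsSquare n then 2 else 0

/-- `q ↦ -q` -/
noncomputable def ng : ℚ⟦X⟧ →+* ℚ⟦X⟧ := rescale (-1)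

/-- `q ↦ q²` -/
noncomputable def dbl : ℚ⟦X⟧ →ₐ[ℚ] ℚ⟦X⟧ := PowerSeries.expand 2 two_ne_zero

/-- `θ = q d/dq` -/
noncomputable def th : Derivation ℚ ℚ⟦X⟧ ℚ⟦X⟧ := (X : ℚ⟦X⟧) • PowerSeries.derivative ℚ

/-- `w = φ²` -/
noncomputable def w : ℚ⟦X⟧ := phi ^ 2

/-- `1 / w` -/
noncomputable def wi : ℚ⟦X⟧ := w⁻¹

/-- `u = (w(q) - w(-q)) / (8 w(q)) = q + ...` -/
noncomputable def u : ℚ⟦X⟧ := C (1 / 8 : ℚ) * (w - ng w) * wi

/-- `ζ = θ w / w³` -/
noncomputable def zt : ℚ⟦X⟧ := th w * wi ^ 3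

/-- the derivation `𝒟 = w⁻² θ` acts on functions of `u` as `p d/du` with
`p = u (1 - 4 u) (1 - 8 u)` -/
noncomputable def pp : Polynomial ℚ :=
  Polynomial.X * (1 - 4 * Polynomial.X) * (1 - 8 * Polynomial.X)

/-- `𝒟² w = η(u) w` with `η = 4 u (1 - 4 u) (1 - 8 u)²` -/
noncomputable def eta : Polynomial ℚ :=
  4 * Polynomial.X * (1 - 4 * Polynomial.X) * (1 - 8 * Polynomial.X) ^ 2

/-- power series with integral coefficients -/
noncomputable def IntSer : Subring ℚ⟦X⟧ := (PowerSeries.map (Int.castRingHom ℚ)).range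

/-- rational numbers with odd denominator -/
def Z2 : Subring ℚ where
  carrier := {x | Odd x.den}
  mul_mem' {a b} ha hb := by
    have h := Rat.mul_den_dvd a b
    exact Odd.of_dvd_nat (Nat.odd_mul.2 ⟨ha, hb⟩) h
  one_mem' := by simp
  add_mem' {a b} ha hb := by
    have h := Rat.add_den_dvd a b
    exact Odd.of_dvd_nat (Nat.odd_mul.2 ⟨ha, hb⟩) h
  zero_mem' := by simp
  neg_mem' {a} ha := by simpa using ha

/-- power series all of whose coefficients have odd denominator -/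
noncomputable def Ser2 : Subring ℚ⟦X⟧ := (PowerSeries.map Z2.subtype).range

/-- Statement THETA: the identities between the theta functions. -/
structure Theta : Prop where
  th_u : th u = u * (1 - 4 * u) * (1 - 8 * u) * w ^ 2
  th_zt : th zt = w ^ 2 * (4 * u * (1 - 4 * u) * (1 - 8 * u) ^ 2 - zt ^ 2)
  ng_w : ng w = w * (1 - 8 * u)
  ng_u : ng u * (1 - 8 * u) = -u
  u_zero : coeff 0 u = 0
  u_one : coeff 1 u = 1
  w_zero : coeff 0 w = 1
  w_int : w ∈ IntSer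
  wi_int : wi ∈ IntSer
  u_int : u ∈ IntSer
  zt_int : zt ∈ IntSer

/-- Statement RIC: the Riccati equation has no rational solutions. -/
def S_Ric : Prop := ∀ A B : Polynomial ℚ, B ≠ 0 →
  pp * (Polynomial.derivative A * B - A * Polynomial.derivative B) + A ^ 2 ≠ eta * B ^ 2

/-- Statement RAT: the inhomogeneous linear system has no rational solutions. `A i / B` is the
coefficient of `x^i`. -/
def S_Rat : Prop := ∀ (N : ℕ) (R B : Polynomial ℚ) (A : ℕ → Polynomial ℚ), 1 ≤ N → R ≠ 0 →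
  R.natDegree ≤ 2 * N + 1 → B ≠ 0 → (∀ i, N < i → A i = 0) →
  ¬ ∀ i ≤ N, pp * (Polynomial.derivative (A i) * B - A i * Polynomial.derivative B) +
    (if i = 0 then 0 else ((N + 1 - i : ℕ) : Polynomial ℚ) * A (i - 1) * B) +
    ((i + 1 : ℕ) : Polynomial ℚ) * eta * A (i + 1) * B = if i = 0 then R * B ^ 2 else 0

/-- Statement IND: `ζ` is transcendental over `ℚ(u)`. -/
def S_Ind : Prop := ∀ (n : ℕ) (c : ℕ → Polynomial ℚ),
  ∑ b ∈ Finset.range n, Polynomial.aeval u (c b) * zt ^ b = 0 → ∀ b < n, c b = 0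

/-- Statement ZERO: the zero estimate. -/
def S_Zero : Prop := ∀ (N K κ D : ℕ) (R : Polynomial ℚ) (F : ℚ⟦X⟧), 1 ≤ N → N * K ≤ κ → R ≠ 0 →
  R.natDegree ≤ 2 * N + 1 → th F = w ^ (N + 2) * Polynomial.aeval u R →
  ∀ c : ℕ → ℕ → Polynomial ℚ, (∀ k b, (c k b).natDegree ≤ D) →
  (∀ k b, c k b ≠ 0 → k ≤ K ∧ b + N * k ≤ κ) → (∃ k b, c k b ≠ 0) →
  ∃ n ≤ (K + 1) * (κ + 1) * (D + (2 * N + 4) * ((K + 1) * (κ + 1))),
    coeff n (∑ k ∈ Finset.range (K + 1), ∑ b ∈ Finset.range (κ + 1),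
      Polynomial.aeval u (c k b) * zt ^ b * (F * wi ^ N) ^ k) ≠ 0

/-- Statement NEAR: 2-adic near-overconvergence. -/
def S_Near : Prop := ∀ (N : ℕ) (R : Polynomial ℤ) (F : ℚ⟦X⟧),
  th F = w ^ (N + 2) * Polynomial.aeval u R → ng F = -F → ∀ M : ℕ,
  ∃ (Q : Polynomial ℤ) (A : ℕ → Polynomial ℤ) (g : ℚ⟦X⟧), Odd (Q.coeff 0) ∧ g ∈ Ser2 ∧
    Polynomial.aeval (2 * u) Q * (2 ^ (R.natDegree + 1) * F) =
      w ^ N * ∑ i ∈ Finset.range (N + 1), Polynomial.aeval (2 * u) (A i) * zt ^ i + 2 ^ M * g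

/-- Ramanujan's tau function: `τ(n)` is the coefficient of `q^n` in `q ∏_{m ≥ 1} (1 - q^m)^24`. -/
noncomputable def tau (n : ℕ) : ℤ :=
  (Polynomial.X * ∏ m ∈ Finset.range n, (1 - Polynomial.X ^ (m + 1)) ^ 24 : Polynomial ℤ).coeff n

/-- `Δ^[2] = ∑_{n odd} τ(n) q^n = w^12 R_Δ(u)` -/
noncomputable def RD : Polynomial ℤ :=
  Polynomial.X * (1 - 4 * Polynomial.X) * (1 - 8 * Polynomial.X) ^ 2 *
    (1 - 24 * (Polynomial.X * (1 - 4 * Polynomial.X)) +
      384 * (Polynomial.X * (1 - 4 * Polynomial.X)) ^ 2 -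
      2048 * (Polynomial.X * (1 - 4 * Polynomial.X)) ^ 3)

/-- Statement DELTA: the discriminant. -/
structure Delta : Prop where
  /-- the odd part of the discriminant is a polynomial in `u` times `w^12` -/
  odd_part : (PowerSeries.mk fun n => if Odd n then (tau n : ℚ) else 0) =
    w ^ 12 * Polynomial.aeval u RD
  /-- the Hecke relations -/
  hecke : ∀ p : ℕ, p.Prime → ∀ n : ℕ,
    tau (p * n) = tau p * tau n - if p ∣ n then (p : ℤ) ^ 11 * tau (n / p) else 0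
  /-- connection with the discriminant of Mathlib -/
  disc : ∀ n : ℕ, (UpperHalfPlane.qExpansion 1 CuspForm.discriminant).coeff n = (tau n : ℂ)

end H809.OD
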