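import Pool.Agent.Run7.h159.OD.Rat
import Pool.Agent.Run7.h600.OD.Theta
import Pool.Agent.Run7.h709.OD.Asm
import Pool.Agent.Run7.h709.OD.Grow
import Pool.Agent.Run7.h709.OD.Ind
import Pool.Agent.Run7.h594.OD.Near
import Pool.Agent.Run7.h635.OD.Pig
import Pool.Agent.Run7.h809.OD.Zero3
import Pool.Agent.Run7.h809.OD.Den

/-!
# The main theorem on denominators, unconditionally

`H809.OD.main_thm : S_Main` (assembled from the pieces of helper159, helper594, helper600,
helper635, helper709 and helper809).
-/

set_option autoImplicit false

namespace H809.OD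

theorem zero_thm : S_Zero :=
  H809.OD.Inst.zero_est (Run7.h709.OD.ind theta_holds Run7.h159.OD.ric) Run7.h159.OD.rat

theorem main_thm : S_Main :=
  Run7.h709.OD.main theta_holds zero_thm
    (Run7.h635.OD.pig theta_holds (H594.OD.near theta_holds))
    (Run7.h709.OD.grow theta_holds) (den theta_holds) size

end H809.OD
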