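import Pool.Agent.Run7.h709.OD.Asm
import Pool.Agent.Run7.h809.OD.Final

/-!
# The main theorem on denominators with an explicit constant
(adapted from the assembly of helper709)
-/

set_option autoImplicit false

open PowerSeries

namespace H809.OD.Expl

open H809.OD Run7.h709.OD

/-- upper bound for the coefficients of the auxiliary function -/
theorem upperh (N d K D h : ℕ) (F : ℚ⟦X⟧) (c : ℕ → ℕ → ℕ → ℤ) (hc : ∀ j k b, |c j k b| < 2 ^ h)
    (C : ℝ) (hC : 1 ≤ C)
    (hg : ∀ r : ℝ, 0 < r → r < 1 → ∀ K D n j k b : ℕ, j ≤ D → k ≤ K → b ≤ N * K →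
      |((coeff n (w ^ (D + 4 * N * K) * row N d F j k b) : ℚ) : ℝ)| * r ^ n ≤
        (2 / (1 - r)) ^ (2 * D) * (C * (n + 1) * (2 / (1 - r))) ^ (15 * (N + 1) * (K + 1)))
    (m T x n : ℕ) (hm : 1 ≤ m) (hn : n ≤ m * T) (hnx : n ≤ x) :
    |((coeff n (w ^ (D + 4 * N * K) * Phi N d F K D c) : ℚ) : ℝ)| ≤
      ((D * ((K + 1) * (N * K + 1)) : ℕ) : ℝ) * (2 ^ h * (2 ^ T * ((4 * m) ^ (2 * D) *
        (C * (x + 1) * (4 * m)) ^ (15 * (N + 1) * (K + 1))))) := by
  set B : ℝ := 2 ^ T * ((4 * m) ^ (2 * D) * (C * (x + 1) * (4 * m)) ^ (15 * (N + 1) * (K + 1)))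
    with hB
  have hm' : (1 : ℝ) ≤ m := by exact_mod_cast hm
  have hrow : ∀ j k b : ℕ, j ≤ D → k ≤ K → b ≤ N * K →
      |((coeff n (w ^ (D + 4 * N * K) * row N d F j k b) : ℚ) : ℝ)| ≤ B := by
    intro j k b hj hk hb
    have hr0 : (0 : ℝ) < 1 - 1 / (2 * m) := by
      rw [sub_pos, div_lt_one (by positivity)]
      linarith
    have hr1 : (1 : ℝ) - 1 / (2 * m) < 1 := by
      have : (0 : ℝ) < 1 / (2 * m) := by positivity
      linarith
    have h1 := hg _ hr0 hr1 K D n j k b hj hk hb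
    have h2 : (2 : ℝ) / (1 - (1 - 1 / (2 * m))) = 4 * m := by
      field_simp
      ring
    rw [h2] at h1
    have h3 : (1 / 2 : ℝ) ^ T ≤ (1 - 1 / (2 * m)) ^ n := by
      have e1 : (1 / 2 : ℝ) ≤ (1 - 1 / (2 * m)) ^ m := by
        have e2 := one_add_mul_le_pow (a := -(1 / (2 * (m : ℝ)))) (by
          have : (1 : ℝ) / (2 * m) ≤ 1 := by
            rw [div_le_one (by positivity)]
            linarith
          linarith) m
        rw [← sub_eq_add_neg] at e2
        refine le_trans (le_of_eq ?_) e2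
        field_simp
        ring
      calc (1 / 2 : ℝ) ^ T ≤ ((1 - 1 / (2 * m)) ^ m) ^ T := by gcongr
        _ = (1 - 1 / (2 * m)) ^ (m * T) := by rw [← pow_mul]
        _ ≤ _ := pow_le_pow_of_le_one hr0.le hr1.le hn
    have h4 : |((coeff n (w ^ (D + 4 * N * K) * row N d F j k b) : ℚ) : ℝ)| * (1 / 2) ^ T ≤
        (4 * m) ^ (2 * D) * (C * (x + 1) * (4 * m)) ^ (15 * (N + 1) * (K + 1)) := by
      refine (mul_le_mul_of_nonneg_left h3 (abs_nonneg _)).trans (h1.trans ?_)
      have : (n : ℝ) ≤ x := by exact_mod_cast hnx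
      gcongr
    calc |((coeff n (w ^ (D + 4 * N * K) * row N d F j k b) : ℚ) : ℝ)| =
        2 ^ T * (|((coeff n (w ^ (D + 4 * N * K) * row N d F j k b) : ℚ) : ℝ)| * (1 / 2) ^ T) := by
          rw [mul_comm (|_|), ← mul_assoc, ← mul_pow]
          norm_num
      _ ≤ B := by
          rw [hB]
          gcongr
  have hB0 : 0 ≤ B := by positivity
  rw [coeff_Phi]
  push_cast
  have h5 : ∀ j ∈ Finset.range D, ∀ k ∈ Finset.range (K + 1), ∀ b ∈ Finset.range (N * K + 1),
      |(c j k b : ℝ) * ((coeff n (w ^ (D + 4 * N * K) * row N d F j k b) : ℚ) : ℝ)| ≤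
        2 ^ h * B := by
    intro j hj k hk b hb
    rw [abs_mul]
    have e1 : |(c j k b : ℝ)| ≤ 2 ^ h := by
      have := (hc j k b).le
      exact_mod_cast this
    rw [Finset.mem_range] at hj hk hb
    exact mul_le_mul e1 (hrow j k b (by omega) (by omega) (by omega)) (abs_nonneg _) (by positivity)
  refine (Finset.abs_sum_le_sum_abs _ _).trans ?_
  calc _ ≤ ∑ j ∈ Finset.range D, ((K + 1 : ℕ) : ℝ) * (((N * K + 1 : ℕ) : ℝ) * (2 ^ h * B)) := by
        refine Finset.sum_le_sum fun j hj => ?_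
        refine (Finset.abs_sum_le_sum_abs _ _).trans ?_
        refine (Finset.sum_le_card_nsmul _ _ (((N * K + 1 : ℕ) : ℝ) * (2 ^ h * B)) ?_).trans
          (le_of_eq ?_)
        · intro k hk
          refine (Finset.abs_sum_le_sum_abs _ _).trans ?_
          refine (Finset.sum_le_card_nsmul _ _ (2 ^ h * B) ?_).trans (le_of_eq ?_)
          · intro b hb
            exact h5 j hj k hk b hb
          · rw [Finset.card_range, nsmul_eq_mul]
        · rw [Finset.card_range, nsmul_eq_mul]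
    _ = _ := by
        rw [Finset.sum_const, Finset.card_range, nsmul_eq_mul]
        push_cast
        ring

/-- the inequality coming from one auxiliary function -/
theorem coreh (h : Theta) (hz : S_Zero) (hp : S_Pig) (hd : S_Den) (N : ℕ) (R : Polynomial ℤ)
    (a : ℕ → ℤ) (P : ℕ → Prop) (hN : 1 ≤ N) (hR : R ≠ 0) (hdeg : R.natDegree ≤ N + 2)
    (F : ℚ⟦X⟧) (hF : F = PowerSeries.mk fun n => (a n : ℚ) / n)
    (hthF : th F = w ^ (N + 2) * Polynomial.aeval u R) (hng : ng F = -F)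
    (C : ℝ) (hC : 1 ≤ C)
    (hg : ∀ r : ℝ, 0 < r → r < 1 → ∀ K D n j k b : ℕ, j ≤ D → k ≤ K → b ≤ N * K →
      |((coeff n (w ^ (D + 4 * N * K) * row N R.natDegree F j k b) : ℚ) : ℝ)| * r ^ n ≤
        (2 / (1 - r)) ^ (2 * D) * (C * (n + 1) * (2 / (1 - r))) ^ (15 * (N + 1) * (K + 1)))
    (l η K m : ℕ) (hη : 1 ≤ η) (hK : 2 * (l * (l + 1)) ≤ η * (K + 1)) (hm : m = (K + 1) * (2 * N * K + 1))
    (D x : ℕ) (hD : 1 ≤ D) (hx : m * (D + (2 * N + 4) * m) ≤ x)
    (hP : ∀ p, p.Prime → ¬ P p → ∀ n ≤ x, (p : ℤ) ^ (n.factorization p) ∣ a n) :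
    (2 : ℝ) ^ (l * D) ≤ (Eden P x : ℝ) ^ K * (((D * ((K + 1) * (N * K + 1)) : ℕ) : ℝ) *
      (2 ^ (η * D) * (2 ^ (D + (2 * N + 4) * m) * ((4 * m) ^ (2 * D) *
        (C * (x + 1) * (4 * m)) ^ (15 * (N + 1) * (K + 1)))))) := by
  have hm1 : 1 ≤ m := by
    rw [hm]
    exact Nat.mul_pos (by omega) (by omega)
  -- Siegel's lemma
  obtain ⟨c, hc, ⟨j0, hj0, k0, hk0, b0, hb0, hc0⟩, a0, U, g, ha0, hU, hgS, hUg⟩ :=
    hp N R F hthF hng K D (l * D) (η * D) (by
      have e1 : l * (l + 1) * (2 * N * K + 1) < η * ((K + 1) * (N * K + 1)) := by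
        have e2 : 2 * (l * (l + 1) * (2 * N * K + 1)) < 2 * (η * ((K + 1) * (N * K + 1))) := by
          calc 2 * (l * (l + 1) * (2 * N * K + 1)) = (2 * (l * (l + 1))) * (2 * N * K + 1) := by
                ring
            _ ≤ (η * (K + 1)) * (2 * N * K + 1) := Nat.mul_le_mul_right _ hK
            _ < (η * (K + 1)) * (2 * (N * K + 1)) := by
                refine Nat.mul_lt_mul_of_pos_left (by nlinarith) (Nat.mul_pos hη (by omega))
            _ = 2 * (η * ((K + 1) * (N * K + 1))) := by ring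
        omega
      calc l * D * (2 * N * K + 1) * (D + l * D) = (l * (l + 1) * (2 * N * K + 1)) * (D * D) := by
            ring
        _ < (η * ((K + 1) * (N * K + 1))) * (D * D) :=
            Nat.mul_lt_mul_of_pos_right e1 (Nat.mul_pos hD hD)
        _ = (η * D) * (D * ((K + 1) * (N * K + 1))) := by ring)
  change U * Phi N R.natDegree F K D c = 2 ^ (l * D) * g at hUg
  -- the zero estimate
  have hne : ∃ n, n ≤ m * (D + (2 * N + 4) * m) ∧ coeff n (Phi N R.natDegree F K D c) ≠ 0 := by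
    have h1 := hz N K (2 * N * K) D (R.map (Int.castRingHom ℚ)) F hN (by nlinarith)
      (by
        rw [Ne, Polynomial.map_eq_zero_iff (RingHom.injective_int (Int.castRingHom ℚ))]
        exact hR)
      (by
        have := Polynomial.natDegree_map_le (p := R) (f := Int.castRingHom ℚ)
        omega)
      (by
        rw [hthF]
        congr 1
        have : Int.castRingHom ℚ = algebraMap ℤ ℚ := rfl
        rw [this, Polynomial.aeval_map_algebraMap])
      (cpoly N R.natDegree K D c) (cpoly_deg _ _ _ _ _)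
      (fun k b hkb => by
        have := cpoly_supp _ _ _ _ _ _ _ hkb
        refine ⟨this.1, ?_⟩
        have e1 : N * k ≤ N * K := Nat.mul_le_mul_left _ this.1
        have e2 : 2 * N * K = N * K + N * K := by ring
        omega)
      ⟨k0, b0, fun h0 => by
        have := cpoly_coeff N R.natDegree K D c j0 k0 b0 hj0 hk0 hb0
        rw [h0, Polynomial.coeff_zero] at this
        have h2 : (c j0 k0 b0 : ℚ) ≠ 0 := by exact_mod_cast hc0
        exact mul_ne_zero h2 (by positivity) this.symm⟩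
    rw [cpoly_sum, ← hm] at h1
    obtain ⟨n, hn, hn1⟩ := h1
    exact ⟨n, hn, hn1⟩
  classical
  obtain ⟨n, hn, hn0, hmin⟩ : ∃ n, n ≤ m * (D + (2 * N + 4) * m) ∧
      coeff n (Phi N R.natDegree F K D c) ≠ 0 ∧
      ∀ i < n, coeff i (Phi N R.natDegree F K D c) = 0 := by
    refine ⟨Nat.find hne, (Nat.find_spec hne).1, (Nat.find_spec hne).2, fun i hi => ?_⟩
    by_contra h0
    exact Nat.find_min hne hi ⟨hi.le.trans (Nat.find_spec hne).1, h0⟩
  have hnx : n ≤ x := hn.trans hx
  -- integrality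
  obtain ⟨z, hz1⟩ := integral N R.natDegree K D n (D + 4 * N * K) (Eden P x) F c
    (fun j k b hk => by
      rw [hF]
      exact hd N a P x hP K (D + 4 * N * K) R.natDegree j k b n hk hnx)
  have hdvd := two_dvd h n (D + 4 * N * K) (l * D) (Eden P x) K _ U g a0 z ha0 hU hgS hUg hmin hz1
  have hE : Eden P x ≠ 0 := Eden_ne P x
  have hz0 : z ≠ 0 := by
    intro h0
    rw [h0, Int.cast_zero, lead _ _ _ hmin, coeff_zero_eq_constantCoeff_apply, map_pow,
      ← coeff_zero_eq_constantCoeff_apply, h.w_zero, one_pow, one_mul] at hz1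
    have h1 : ((Eden P x : ℕ) : ℚ) ≠ 0 := by exact_mod_cast hE
    exact mul_ne_zero (pow_ne_zero K h1) hn0 hz1
  have hle : (2 : ℤ) ^ (l * D) ≤ |z| := by
    have := Int.le_of_dvd (abs_pos.2 hz0) ((dvd_abs _ _).2 hdvd)
    exact this
  have hle' : (2 : ℝ) ^ (l * D) ≤ |(z : ℝ)| := by exact_mod_cast hle
  refine hle'.trans ?_
  have hz2 : (z : ℝ) = (Eden P x : ℝ) ^ K *
      ((coeff n (w ^ (D + 4 * N * K) * Phi N R.natDegree F K D c) : ℚ) : ℝ) := by
    have : ((z : ℚ) : ℝ) = (((Eden P x : ℚ) ^ K *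
      coeff n (w ^ (D + 4 * N * K) * Phi N R.natDegree F K D c) : ℚ) : ℝ) := by rw [hz1]
    push_cast at this
    exact this
  rw [hz2, abs_mul, abs_of_nonneg (by positivity)]
  refine mul_le_mul_of_nonneg_left ?_ (by positivity)
  exact upperh N R.natDegree K D (η * D) F c hc C hC hg m (D + (2 * N + 4) * m) x n hm1 hn hnx

/-- **Main theorem with an explicit constant** -/
theorem main_expl (N : ℕ) (R : Polynomial ℤ) (a : ℕ → ℤ) (P : ℕ → Prop) (hN : 1 ≤ N) (hR : R ≠ 0)
    (hdeg : R.natDegree ≤ N + 2)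
    (hcoef : ∀ n, coeff n (w ^ (N + 2) * Polynomial.aeval u R) = (a n : ℚ))
    (heven : ∀ n, Even n → a n = 0)
    (hP : ∀ p, p.Prime → ¬ P p → ∀ n < p ^ 2, p ∣ n → (p : ℤ) ∣ a n)
    (l η K m t : ℕ) (hη : 1 ≤ η) (hK1 : 1 ≤ K) (ht : 1 ≤ t) (hK : 2 * (l * (l + 1)) ≤ η * (K + 1))
    (hm : m = (K + 1) * (2 * N * K + 1))
    (hl : (2 : ℝ) ^ (η + 1) * (4 * (m : ℝ)) ^ 2 * 2 ^ (3 * t) ≤ 2 ^ l) :
    ∃ x0 : ℕ, ∀ x : ℕ, x0 ≤ x → 2 * t * Real.log 2 / (m * K) * x ≤
      (by classical exact ∑ p ∈ (Finset.range (x + 1)).filter (fun p => p.Prime ∧ P p), Real.log p) := by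
  have h : Theta := theta_holds
  have hz : S_Zero := zero_thm
  have hp : S_Pig := Run7.h635.OD.pig theta_holds (H594.OD.near theta_holds)
  have hg : S_Grow := Run7.h709.OD.grow theta_holds
  have hd : S_Den := den theta_holds
  have hs : S_Size := size
  obtain ⟨F, hF⟩ : ∃ F : ℚ⟦X⟧, F = PowerSeries.mk fun n => (a n : ℚ) / n := ⟨_, rfl⟩
  have hthF : th F = w ^ (N + 2) * Polynomial.aeval u R := by
    ext n
    rw [coeff_th, hcoef n, hF, coeff_mk]
    rcases Nat.eq_zero_or_pos n with rfl | hn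
    · simp [heven 0 (by simp)]
    · have : (n : ℚ) ≠ 0 := by positivity
      field_simp
  have hng : ng F = -F := by
    ext n
    have : coeff n (ng F) = (-1) ^ n * coeff n F := by
      unfold ng
      rw [coeff_rescale]
    rw [this, map_neg]
    rcases Nat.even_or_odd n with hn | hn
    · rw [hF, coeff_mk, heven n hn]
      simp
    · rw [hn.neg_one_pow]
      ring
  have hF0 : coeff 0 F = 0 := by
    rw [hF, coeff_mk, heven 0 (by simp)]
    simp
  obtain ⟨C, hC, hgr⟩ := hg N R F hdeg hthF hF0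
  obtain ⟨q, hq⟩ : ∃ q : ℝ, q = 4 * (m : ℝ) := ⟨_, rfl⟩
  rw [← hq] at hl
  have hm1 : 1 ≤ m := by
    rw [hm]
    exact Nat.mul_pos (by omega) (by omega)
  have hmR : (1 : ℝ) ≤ m := by exact_mod_cast hm1
  have hKR : (1 : ℝ) ≤ K := by exact_mod_cast hK1
  have hlog2 : 0 < Real.log 2 := Real.log_pos (by norm_num)
  obtain ⟨E', hE'⟩ : ∃ E', E' = 15 * (N + 1) * (K + 1) := ⟨_, rfl⟩
  set T0 : ℕ := (2 * N + 4) * m with hT0
  set c3 : ℝ := Real.log (((K + 1) * (N * K + 1) : ℕ) : ℝ) + T0 * Real.log 2 +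
    E' * (Real.log C + Real.log 2 + Real.log (4 * m)) with hc3
  set c4 : ℝ := c3 + 3 * t * Real.log 2 * (1 + T0) with hc4
  have htR : (1 : ℝ) ≤ t := by exact_mod_cast ht
  have hasy := (asym c4 (1 + E') (2 * K) (t * Real.log 2 / m) (by positivity)).and
    (Filter.eventually_ge_atTop (m * (T0 + 1)))
  obtain ⟨x0, hx0⟩ := Filter.eventually_atTop.1 hasy
  refine ⟨x0, fun x hx => ?_⟩
  obtain ⟨hA, hxm⟩ := hx0 x hx
  have hx1 : 1 ≤ x := le_trans (Nat.mul_pos hm1 (by omega)) hxm
  have hxR : (1 : ℝ) ≤ x := by exact_mod_cast hx1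
  obtain ⟨D, hD⟩ : ∃ D, D = x / m - T0 := ⟨_, rfl⟩
  have hdiv : T0 + 1 ≤ x / m := (Nat.le_div_iff_mul_le hm1).2 (by rw [mul_comm]; exact hxm)
  have hD1 : 1 ≤ D := by omega
  have hDT : D + T0 = x / m := by omega
  have hDx : m * (D + T0) ≤ x := by
    rw [hDT]
    exact Nat.mul_div_le x m
  have hDle : D ≤ x := by
    refine le_trans ?_ hDx
    nlinarith
  have hcore := coreh h hz hp hd N R a (fun p => P p ∨ p ^ 2 ≤ x) hN hR hdeg F hF hthF hng C hC hgr
    l η K m hη hK hm D x hD1 hDx (by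
      intro p hpp hnp n hn
      have hnp' := not_or.1 hnp
      have hpx : x < p ^ 2 := not_le.1 hnp'.2
      rcases Nat.eq_zero_or_pos n with rfl | hn0
      · rw [heven 0 (by simp)]
        exact dvd_zero _
      have hv : n.factorization p < 2 := by
        by_contra h2
        have h3 : p ^ 2 ∣ n := (hpp.pow_dvd_iff_le_factorization hn0.ne').2 (not_lt.1 h2)
        have := Nat.le_of_dvd hn0 h3
        omega
      have hv' : n.factorization p = 0 ∨ n.factorization p = 1 := by omega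
      rcases hv' with h0 | h0
      · rw [h0, pow_zero]
        exact one_dvd _
      · rw [h0, pow_one]
        refine hP p hpp hnp'.1 n (by omega) ?_
        exact Nat.dvd_of_factorization_pos (by omega))
  have hsz := size_le hs P x
  rw [← hT0, ← hE'] at hcore
  -- logarithms
  have hE0 : (0 : ℝ) < (Eden (fun p => P p ∨ p ^ 2 ≤ x) x : ℝ) := by
    exact_mod_cast Nat.pos_of_ne_zero (Eden_ne (fun p => P p ∨ p ^ 2 ≤ x) x)
  obtain ⟨L, hL⟩ : ∃ L : ℝ, L = (Eden (fun p => P p ∨ p ^ 2 ≤ x) x : ℝ) := ⟨_, rfl⟩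
  have hDpos : (0 : ℝ) < D := by exact_mod_cast hD1
  have hCpos : (0 : ℝ) < C := by linarith
  obtain ⟨k1, hk1⟩ : ∃ k1 : ℝ, k1 = (((K + 1) * (N * K + 1) : ℕ) : ℝ) := ⟨_, rfl⟩
  have hk1pos : (0 : ℝ) < k1 := by
    rw [hk1]
    positivity
  obtain ⟨y, hy⟩ : ∃ y : ℝ, y = (x : ℝ) + 1 := ⟨_, rfl⟩
  have hypos : 0 < y := by
    rw [hy]
    positivity
  have hqpos : 0 < q := by
    rw [hq]
    positivity
  have hDK : (((D * ((K + 1) * (N * K + 1)) : ℕ) : ℝ)) = D * k1 := by
    rw [hk1]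
    push_cast
    ring
  rw [← hL] at hcore hE0 hsz
  rw [hDK, ← hq, ← hy] at hcore
  have hlogc := Real.log_le_log (by positivity) hcore
  rw [Real.log_pow, Real.log_mul (by positivity) (by positivity),
    Real.log_mul (by positivity) (by positivity), Real.log_mul (by positivity) (by positivity),
    Real.log_mul (by positivity) (by positivity), Real.log_mul (by positivity) (by positivity),
    Real.log_mul (by positivity) (by positivity), Real.log_pow, Real.log_pow, Real.log_pow,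
    Real.log_pow, Real.log_pow, Real.log_mul (by positivity) (by positivity),
    Real.log_mul (by positivity) (by positivity)] at hlogc
  have hl' : (η + 1 + 3 * t) * Real.log 2 + 2 * Real.log q ≤ l * Real.log 2 := by
    have := Real.log_le_log (by positivity) hl
    rw [Real.log_mul (by positivity) (by positivity), Real.log_mul (by positivity) (by positivity),
      Real.log_pow, Real.log_pow, Real.log_pow, Real.log_pow] at this
    push_cast at this
    linarith
  have hlD : Real.log D ≤ Real.log x := Real.log_le_log hDpos (by exact_mod_cast hDle)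
  have hlx1 : Real.log y ≤ Real.log 2 + Real.log x := by
    rw [← Real.log_mul (by positivity) (by positivity)]
    exact Real.log_le_log hypos (by rw [hy]; linarith)
  have hDge : (x : ℝ) / m - 1 - T0 ≤ D := by
    have h1 : (x : ℝ) < m * ((D : ℝ) + T0 + 1) := by
      have h2 : x < m * (x / m + 1) := Nat.lt_mul_div_succ x hm1
      rw [← hDT] at h2
      exact_mod_cast h2
    have h3 : (x : ℝ) / m < (D : ℝ) + T0 + 1 := by
      rw [div_lt_iff₀ (by positivity)]
      linarith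
    linarith
  have key : ∀ S : ℝ, Real.log L ≤ S + 2 * (Real.sqrt x * Real.log x) →
      2 * t * Real.log 2 / (m * K) * x ≤ S := by
    intro S hsz
    push_cast at hlogc
    have hK0 : (0 : ℝ) < K := by linarith
    have e1 : (K : ℝ) * Real.log L ≤
        K * (S + 2 * (Real.sqrt x * Real.log x)) := mul_le_mul_of_nonneg_left hsz hK0.le
    have e2 : (E' : ℝ) * (Real.log C + Real.log y + Real.log q) ≤
        E' * (Real.log C + (Real.log 2 + Real.log x) + Real.log q) := by
      gcongr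
    have e3 : (D : ℝ) * ((η + 1 + 3 * t) * Real.log 2 + 2 * Real.log q) ≤ D * (l * Real.log 2) :=
      mul_le_mul_of_nonneg_left hl' hDpos.le
    have e4 : ((x : ℝ) / m - 1 - T0) * (3 * t * Real.log 2) ≤ D * (3 * t * Real.log 2) :=
      mul_le_mul_of_nonneg_right hDge (by positivity)
    have e6 : 3 * t * Real.log 2 * (x / m) ≤ K * S + (c4 + (1 + E') * Real.log x +
        2 * K * (Real.sqrt x * Real.log x)) := by
      rw [hc4, hc3, ← hk1, ← hq]
      linarith
    have e7 : 2 * t * Real.log 2 * (x / m) ≤ K * S := by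
      have : t * Real.log 2 / m * x = t * Real.log 2 * (x / m) := by ring
      rw [this] at hA
      linarith
    have e8 : 2 * t * Real.log 2 / (m * K) * x = (2 * t * Real.log 2 * (x / m)) / K := by
      field_simp
    rw [e8, div_le_iff₀ hK0]
    linarith
  exact key _ hsz


end H809.OD.Expl
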