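import Pool.Agent.Run7.h809.OD.Abs

/-!
# Submodules of the differential module with a primitive adjoined
-/

set_option autoImplicit false
set_option linter.unusedSectionVars false

open Polynomial Differential
open scoped Differential

namespace H809.OD.Abs

variable {K L : Type} [Field K] [Field L] [CharZero K] [CharZero L] [Differential K]
  [Differential L] [Algebra K L] [DifferentialAlgebra K L]

variable (S : Sys K L)

/-- the connection on sequences (polynomials in `ζ` and in `ξ = F / w^N`) -/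
noncomputable def nabs (N κ : ℕ) (R : K) (g : ℕ → K[X]) : ℕ → K[X] := fun k =>
  nab S (κ - N * k) (g k) + ((k + 1 : ℕ) : K[X]) * C R * g (k + 1)

lemma nab_zero (n : ℕ) : nab S n 0 = 0 := by simp [nab]

lemma nab_add (n : ℕ) (a b : K[X]) : nab S n (a + b) = nab S n a + nab S n b := by
  simp only [nab, map_add]; ring

lemma aeval_nab (n : ℕ) (g : K[X]) :
    S.w ^ n * aeval S.ζ (nab S n g) = (S.w ^ n * aeval S.ζ g)′ := by
  have := H_nab_zero S n g
  rwa [H_zero_eq, H_zero_eq] at this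

/-- **Case B of the structure theorem is impossible.** -/
theorem caseB (N n k1 : ℕ) (R : K) (F : L) (hF : F′ = algebraMap K L R * S.w ^ N)
    (hrat : ∀ (c : ℚ) (G : K[X]), c ≠ 0 → G.natDegree ≤ N → nab S N G ≠ C ((c : K) * R))
    (W : Submodule K (ℕ → K[X]))
    (ν : (ℕ → K[X]) → (ℕ → K[X])) (hν : ∀ g ∈ W, ν g ∈ W)
    (hν0 : ∀ g ∈ W, ν g (k1 + 1) = nab S n (g (k1 + 1)))
    (hν1 : ∀ g ∈ W, ν g k1 = nab S (n + N) (g k1) + ((k1 + 1 : ℕ) : K[X]) * C R * g (k1 + 1))
    (hdeg0 : ∀ g ∈ W, (g (k1 + 1)).natDegree ≤ n) (hdeg1 : ∀ g ∈ W, (g k1).natDegree ≤ n + N)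
    (hsurj : ∀ c : K[X], c.natDegree ≤ n → ∃ g ∈ W, g (k1 + 1) = c)
    (hB : ∀ g ∈ W, g (k1 + 1) = 0 → g k1 = 0) : False := by
  classical
  have hex : ∀ j : ℕ, ∃ g : ℕ → K[X], g ∈ W ∧ (j ≤ n → g (k1 + 1) = X ^ j) := by
    intro j
    by_cases hj : j ≤ n
    · obtain ⟨g, hg, hg1⟩ := hsurj (X ^ j) (by rw [natDegree_X_pow]; exact hj)
      exact ⟨g, hg, fun _ => hg1⟩
    · exact ⟨0, W.zero_mem, fun h => absurd h hj⟩
  choose v hvW hv using hex
  set kk : L := ((k1 + 1 : ℕ) : L) with hkk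
  have hkk0 : kk ≠ 0 := by rw [hkk]; exact_mod_cast Nat.succ_ne_zero k1
  -- the functional `ψ`
  let ψ : (ℕ → K[X]) → L := fun g => S.w ^ (n + N) * aeval S.ζ (g k1) +
    kk * F * (S.w ^ n * aeval S.ζ (g (k1 + 1)))
  let f : ℕ → (ℕ → K[X]) → L := fun i g => if i ≤ n then H S n i (g (k1 + 1)) else ψ g
  have fadd : ∀ i a b, f i (a + b) = f i a + f i b := by
    intro i a b
    simp only [f, ψ]
    split_ifs
    · rw [Pi.add_apply, H_add]
    · simp only [Pi.add_apply, map_add]; ring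
  have fsmul : ∀ i (a : K) b, f i (a • b) = algebraMap K L a * f i b := by
    intro i a b
    simp only [f, ψ]
    split_ifs
    · rw [Pi.smul_apply, H_smul]
    · rw [Pi.smul_apply, Pi.smul_apply, map_smul, map_smul, Algebra.smul_def, Algebra.smul_def]
      ring
  let fl : ℕ → (ℕ → K[X]) →ₗ[K] L := fun i =>
    { toFun := f i
      map_add' := fadd i
      map_smul' := fun a b => by rw [fsmul, RingHom.id_apply, Algebra.smul_def] }
  have fzero : ∀ i, ∀ g ∈ W, g (k1 + 1) = 0 → f i g = 0 := by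
    intro i g hg hg0
    have hg1 := hB g hg hg0
    simp only [f, ψ]
    split_ifs
    · rw [hg0]; simp [H, T]
    · rw [hg0, hg1]; simp
  have fexp : ∀ i, ∀ g ∈ W, f i g = ∑ j ∈ Finset.range (n + 1),
      algebraMap K L ((g (k1 + 1)).coeff j) * f i (v j) := by
    intro i g hg
    set h : ℕ → K[X] := g - ∑ j ∈ Finset.range (n + 1), (g (k1 + 1)).coeff j • v j with hh
    have hhW : h ∈ W := W.sub_mem hg (W.sum_mem fun j _ => W.smul_mem _ (hvW j))
    have hh0 : h (k1 + 1) = 0 := by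
      rw [hh, Pi.sub_apply, Finset.sum_apply, sub_eq_zero]
      conv_lhs => rw [(g (k1 + 1)).as_sum_range_C_mul_X_pow' (n := n + 1)
        (Nat.lt_succ_of_le (hdeg0 g hg))]
      refine Finset.sum_congr rfl fun j hj => ?_
      rw [Pi.smul_apply, hv j (by have := Finset.mem_range.1 hj; omega), smul_eq_C_mul]
    have h1 := fzero i h hhW hh0
    have h2 : fl i h = fl i g - ∑ j ∈ Finset.range (n + 1),
        algebraMap K L ((g (k1 + 1)).coeff j) * fl i (v j) := by
      rw [hh, map_sub, map_sum]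
      congr 1
      refine Finset.sum_congr rfl fun j _ => ?_
      rw [map_smul, Algebra.smul_def]
    have h3 : fl i h = 0 := h1
    rw [h3] at h2
    exact (sub_eq_zero.1 h2.symm)
  obtain ⟨g, ⟨i0, hi0, hgi0⟩, hg⟩ := exists_rel (L := L) (n := n + 2) (m := n + 1) (by omega)
    (fun i j => f i (v j))
  have hrel : ∀ c ∈ W, ∑ i ∈ Finset.range (n + 2), g i * f i c = 0 := by
    intro c hc
    have h1 : ∀ i, f i c = ∑ j ∈ Finset.range (n + 1),
      algebraMap K L ((c (k1 + 1)).coeff j) * f i (v j) := fun i => fexp i c hc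
    simp only [h1, Finset.mul_sum]
    rw [Finset.sum_comm]
    refine Finset.sum_eq_zero fun j hj => ?_
    have h4 := hg j (Finset.mem_range.1 hj)
    have h5 : ∑ i ∈ Finset.range (n + 2), g i * (algebraMap K L ((c (k1 + 1)).coeff j) * f i (v j)) =
        algebraMap K L ((c (k1 + 1)).coeff j) * ∑ i ∈ Finset.range (n + 2), g i * f i (v j) := by
      rw [Finset.mul_sum]
      exact Finset.sum_congr rfl fun s _ => by ring
    rw [h5, h4, mul_zero]
  -- relations between the `H_s` only are impossible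
  have hminrel : ∀ g : ℕ → L, (∀ c ∈ W, ∑ s ∈ Finset.range (n + 1), g s * H S n s (c (k1 + 1)) = 0) →
      ∀ s ≤ n, g s = 0 := by
    intro g hg
    by_contra hcon
    push Not at hcon
    obtain ⟨s, hs, hgs⟩ := hcon
    have h0 := min_rel' S (M := W) (fun c => ⟨ν c, hν c c.2⟩) n
      (fun s c => H S n s ((c : ℕ → K[X]) (k1 + 1)))
      (fun s => (n : ℚ) - s) (fun s hs => (sub_pos.2 (by exact_mod_cast hs : (s : ℚ) < n)).ne')
      (fun c => by
        show H S n 0 (ν c.1 (k1 + 1)) = _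
        rw [hν0 _ c.2]
        exact H_nab_zero S n _)
      (fun s _ c => by
        show H S n (s + 1) (ν c.1 (k1 + 1)) = _
        rw [hν0 _ c.2]
        have := H_nab_succ S n s ((c : ℕ → K[X]) (k1 + 1))
        push_cast
        exact this) g ⟨s, hs, hgs⟩ (fun c => hg c c.2) ⟨v 0, hvW 0⟩
    simp only at h0
    rw [hv 0 (Nat.zero_le n), H_zero_eq] at h0
    simp [S.w_ne] at h0
  have hgtop : g (n + 1) ≠ 0 := by
    intro h0
    have h1 : ∀ s ≤ n, g s = 0 := by
      apply hminrel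
      intro c hc
      have h2 := hrel c hc
      rw [Finset.sum_range_succ, h0, zero_mul, add_zero] at h2
      rw [← h2]
      refine Finset.sum_congr rfl fun s hs => ?_
      simp only [f]
      rw [if_pos (by have := Finset.mem_range.1 hs; omega)]
    rcases Nat.lt_or_ge n i0 with h | h
    · have : i0 = n + 1 := by omega
      exact hgi0 (this ▸ h0)
    · exact hgi0 (h1 i0 h)
  set g1 : ℕ → L := fun s => - g s / g (n + 1) with hg1
  have hψ : ∀ c ∈ W, ψ c = ∑ s ∈ Finset.range (n + 1), g1 s * H S n s (c (k1 + 1)) := by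
    intro c hc
    have h2 := hrel c hc
    rw [Finset.sum_range_succ] at h2
    have h3 : f (n + 1) c = ψ c := by simp only [f]; rw [if_neg (by omega)]
    have h4 : ∑ i ∈ Finset.range (n + 1), g i * f i c =
        ∑ i ∈ Finset.range (n + 1), g i * H S n i (c (k1 + 1)) := by
      refine Finset.sum_congr rfl fun s hs => ?_
      simp only [f]
      rw [if_pos (by have := Finset.mem_range.1 hs; omega)]
    rw [h3, h4] at h2
    have h5 : ∑ s ∈ Finset.range (n + 1), g1 s * H S n s (c (k1 + 1)) =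
        -(g (n + 1))⁻¹ * ∑ i ∈ Finset.range (n + 1), g i * H S n i (c (k1 + 1)) := by
      rw [Finset.mul_sum]
      refine Finset.sum_congr rfl fun s _ => ?_
      simp only [hg1, div_eq_mul_inv]; ring
    rw [h5]
    field_simp
    linear_combination h2
  have hψ' : ∀ c ∈ W, ψ (ν c) = (ψ c)′ := by
    intro c hc
    have h1 := aeval_nab S (n + N) (c k1)
    have h2 := aeval_nab S n (c (k1 + 1))
    simp only [ψ]
    rw [hν0 c hc, hν1 c hc, h2, map_add (aeval S.ζ), mul_add, h1]
    rw [map_add, Derivation.leibniz (Differential.deriv) (kk * F), Derivation.leibniz _ kk F, hF]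
    have h3 : kk′ = 0 := by rw [hkk]; exact Derivation.map_natCast _ _
    rw [h3]
    simp only [map_mul, map_natCast, aeval_C, smul_eq_mul, mul_zero, add_zero, ← hkk]
    ring
  set α : ℕ → ℚ := fun s => (n : ℚ) - s with hα
  set cc : ℕ → L := fun s => (if s < n then ((n : L) - s) * (S.w ^ 2)⁻¹ * g1 (s + 1) else 0) -
    (g1 s)′ with hcc
  have hcc0 : ∀ s ≤ n, cc s = 0 := by
    apply hminrel
    intro c hc
    have h1 := hψ' c hc
    rw [hψ c hc, hψ (ν c) (hν c hc), hν0 c hc, map_sum] at h1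
    simp only [Derivation.leibniz, smul_eq_mul] at h1
    rw [Finset.sum_range_succ'] at h1
    simp only [H_nab_succ, H_nab_zero] at h1
    rw [Finset.sum_add_distrib, Finset.sum_range_succ' (fun s => g1 s * (H S n s (c (k1 + 1)))′)] at h1
    have h2 : ∑ s ∈ Finset.range (n + 1), cc s * H S n s (c (k1 + 1)) =
        ∑ s ∈ Finset.range n, ((n : L) - s) * (S.w ^ 2)⁻¹ * g1 (s + 1) * H S n s (c (k1 + 1)) -
        ∑ s ∈ Finset.range (n + 1), H S n s (c (k1 + 1)) * (g1 s)′ := by
      have h3 : ∀ s, cc s * H S n s (c (k1 + 1)) =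
          (if s < n then ((n : L) - s) * (S.w ^ 2)⁻¹ * g1 (s + 1) * H S n s (c (k1 + 1)) else 0) -
          H S n s (c (k1 + 1)) * (g1 s)′ := by
        intro s
        simp only [hcc]
        split_ifs <;> ring
      simp only [h3]
      rw [Finset.sum_sub_distrib, Finset.sum_range_succ (fun s => if s < n then _ else _),
        if_neg (lt_irrefl n), add_zero]
      congr 1
      refine Finset.sum_congr rfl fun s hs => ?_
      rw [if_pos (Finset.mem_range.1 hs)]
    rw [h2]
    have h4 : ∑ s ∈ Finset.range n, g1 (s + 1) * ((H S n (s + 1) (c (k1 + 1)))′ +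
        ((n : L) - s) * (S.w ^ 2)⁻¹ * H S n s (c (k1 + 1))) =
        ∑ s ∈ Finset.range n, g1 (s + 1) * (H S n (s + 1) (c (k1 + 1)))′ +
        ∑ s ∈ Finset.range n, ((n : L) - s) * (S.w ^ 2)⁻¹ * g1 (s + 1) * H S n s (c (k1 + 1)) := by
      rw [← Finset.sum_add_distrib]
      exact Finset.sum_congr rfl fun s _ => by ring
    rw [h4] at h1
    linear_combination h1
  have hg1z : ∀ s, 1 ≤ s → s ≤ n → g1 s = 0 := by
    by_contra hcon
    push Not at hcon
    obtain ⟨s, hs1, hsn, hgs⟩ := hcon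
    set r := Nat.findGreatest (fun i => g1 i ≠ 0) n with hr
    have h1 : g1 r ≠ 0 := Nat.findGreatest_spec (P := fun i => g1 i ≠ 0) hsn hgs
    have h2 : r ≤ n := Nat.findGreatest_le n
    have h2' : s ≤ r := Nat.le_findGreatest hsn hgs
    have h3 : ∀ s, r < s → s ≤ n → g1 s = 0 := by
      intro s hs1 hs2
      by_contra h4
      exact Nat.findGreatest_is_greatest (P := fun i => g1 i ≠ 0) hs1 hs2 h4
    have h4 : (g1 r)′ = 0 := by
      have h5 := hcc0 r h2
      simp only [hcc] at h5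
      split_ifs at h5 with h6
      · rw [h3 (r + 1) (by omega) (by omega), mul_zero, zero_sub, neg_eq_zero] at h5
        exact h5
      · rw [zero_sub, neg_eq_zero] at h5
        exact h5
    obtain ⟨c, hc⟩ := S.const _ h4
    clear_value r
    obtain ⟨r', rfl⟩ : ∃ r', r = r' + 1 := ⟨r - 1, by omega⟩
    have h5 := hcc0 r' (by omega)
    simp only [hcc] at h5
    rw [if_pos (by omega), hc] at h5
    have h6 : S.w ^ 2 * (g1 r')′ = ((((n : ℚ) - r') * c : ℚ) : L) := by
      rw [← sub_eq_zero.1 h5]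
      have := S.w_ne
      push_cast
      field_simp
    have h7 := S.log _ _ h6
    have h8 : (n : ℚ) - r' ≠ 0 := (sub_pos.2 (by exact_mod_cast (by omega : r' < n) :
      (r' : ℚ) < n)).ne'
    have h9 : c = 0 := (mul_eq_zero.1 h7).resolve_left h8
    rw [h9] at hc
    exact h1 (by rw [hc]; simp)
  have hg10 : (g1 0)′ = 0 := by
    have h5 := hcc0 0 (Nat.zero_le n)
    simp only [hcc] at h5
    split_ifs at h5 with h6
    · rw [hg1z (0 + 1) (by omega) (by omega), mul_zero, zero_sub, neg_eq_zero] at h5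
      exact h5
    · rw [zero_sub, neg_eq_zero] at h5
      exact h5
  obtain ⟨c0, hc0⟩ := S.const _ hg10
  have hfin : ∀ c ∈ W, S.w ^ N * aeval S.ζ (c k1) = ((c0 : L) - kk * F) * aeval S.ζ (c (k1 + 1)) := by
    intro c hc
    have h1 := hψ c hc
    rw [Finset.sum_range_succ'] at h1
    have h2 : ∑ s ∈ Finset.range n, g1 (s + 1) * H S n (s + 1) (c (k1 + 1)) = 0 := by
      refine Finset.sum_eq_zero fun s hs => ?_
      have := Finset.mem_range.1 hs
      rw [hg1z (s + 1) (by omega) (by omega), zero_mul]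
    rw [h2, zero_add, H_zero_eq, hc0] at h1
    simp only [ψ] at h1
    have h3 : S.w ^ n ≠ 0 := pow_ne_zero n S.w_ne
    apply mul_left_cancel₀ h3
    rw [pow_add] at h1
    linear_combination h1
  have e0 := hfin (v 0) (hvW 0)
  have en := hfin (v n) (hvW n)
  rw [hv 0 (Nat.zero_le n), pow_zero, map_one, mul_one] at e0
  rw [hv n le_rfl, map_pow, aeval_X] at en
  set G := v 0 k1 with hG
  have hG1 : v n k1 = X ^ n * G := by
    rw [← sub_eq_zero]
    apply S.tr
    rw [map_sub, map_mul, map_pow, aeval_X]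
    have h3 : S.w ^ N ≠ 0 := pow_ne_zero N S.w_ne
    apply mul_left_cancel₀ h3
    linear_combination en - S.ζ ^ n * e0
  have hGdeg : G.natDegree ≤ N := by
    by_cases hG0 : G = 0
    · rw [hG0]; simp
    have h1 := hdeg1 (v n) (hvW n)
    rw [hG1, natDegree_mul (pow_ne_zero n X_ne_zero) hG0, natDegree_X_pow] at h1
    omega
  have h1 : S.w ^ N * aeval S.ζ (nab S N G) = S.w ^ N * aeval S.ζ (C (((-(k1 + 1 : ℕ) : ℚ) : K) * R)) := by
    rw [aeval_nab, e0, map_sub, Derivation.leibniz, hF]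
    have h3 : kk′ = 0 := by rw [hkk]; exact Derivation.map_natCast _ _
    have h4 : ((c0 : L))′ = 0 := by
      rw [← hc0]; exact hg10
    have h5 : algebraMap K L (((-(k1 + 1 : ℕ) : ℚ) : K) * R) =
        -((k1 + 1 : ℕ) : L) * algebraMap K L R := by
      rw [map_mul, map_ratCast]
      push_cast
      ring
    rw [h3, h4, aeval_C, h5]
    simp only [smul_eq_mul, mul_zero, add_zero, hkk]
    ring
  have h2 : nab S N G = C (((-(k1 + 1 : ℕ) : ℚ) : K) * R) := by
    rw [← sub_eq_zero]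
    apply S.tr
    rw [map_sub, sub_eq_zero]
    exact mul_left_cancel₀ (pow_ne_zero N S.w_ne) h1
  refine hrat _ G ?_ hGdeg h2
  rw [neg_ne_zero]
  exact_mod_cast Nat.succ_ne_zero k1

/-- **Structure theorem**: a stable submodule with an element of degree exactly `k0` contains
everything of degree at most `k0`. -/
theorem fr (N κ Kmax : ℕ) (hκ : N * Kmax ≤ κ) (R : K) (F : L)
    (hF : F′ = algebraMap K L R * S.w ^ N)
    (hrat : ∀ (c : ℚ) (G : K[X]), c ≠ 0 → G.natDegree ≤ N → nab S N G ≠ C ((c : K) * R))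
    (U : Submodule K (ℕ → K[X])) (hst : ∀ g ∈ U, nabs S N κ R g ∈ U)
    (hdeg : ∀ g ∈ U, ∀ k, (g k).natDegree ≤ κ - N * k) :
    ∀ k0 ≤ Kmax, (∃ g ∈ U, g k0 ≠ 0 ∧ ∀ k > k0, g k = 0) →
    ∀ g : ℕ → K[X], (∀ k, (g k).natDegree ≤ κ - N * k) → (∀ k > k0, g k = 0) → g ∈ U := by
  intro k0
  induction k0 using Nat.strong_induction_on with
  | _ k0 ih =>
  rintro hk0 ⟨g0, hg0U, hg0, hg0'⟩
  set n := κ - N * k0 with hn
  let Z : Submodule K (ℕ → K[X]) :=
    { carrier := {g | ∀ k > k0, g k = 0}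
      add_mem' := fun {a b} ha hb k hk => by rw [Pi.add_apply, ha k hk, hb k hk, add_zero]
      zero_mem' := fun k _ => rfl
      smul_mem' := fun c {a} ha k hk => by rw [Pi.smul_apply, ha k hk, smul_zero] }
  let W := U ⊓ Z
  have hWst : ∀ g ∈ W, nabs S N κ R g ∈ W := by
    intro g hg
    refine ⟨hst g hg.1, fun k hk => ?_⟩
    rw [nabs, hg.2 k hk, hg.2 (k + 1) (by have : k > k0 := hk; omega), nab_zero]
    simp
  have hW0 : ∀ g ∈ W, nabs S N κ R g k0 = nab S n (g k0) := by
    intro g hg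
    rw [nabs, hg.2 (k0 + 1) (Nat.lt_succ_self k0), mul_zero, add_zero]
  have hsurj : ∀ c : K[X], c.natDegree ≤ n → ∃ g ∈ W, g k0 = c := by
    have h1 := irr S n (W.map (LinearMap.proj k0 : (ℕ → K[X]) →ₗ[K] K[X]))
      (by
        rintro _ ⟨g, hg, rfl⟩
        exact hdeg g hg.1 k0)
      (by
        rintro _ ⟨g, hg, rfl⟩
        refine ⟨nabs S N κ R g, hWst g hg, ?_⟩
        exact hW0 g hg)
      ⟨g0 k0, ⟨g0, ⟨hg0U, hg0'⟩, rfl⟩, hg0⟩
    intro c hc
    obtain ⟨g, hg, hgc⟩ := h1 c hc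
    exact ⟨g, hg, hgc⟩
  intro g hgdeg hgz
  obtain ⟨v, hvW, hv0⟩ := hsurj (g k0) (hgdeg k0)
  rcases Nat.eq_zero_or_pos k0 with hk | hk
  · have : g = v := by
      funext k
      rcases Nat.eq_zero_or_pos k with h | h
      · rw [h]; rw [hk] at hv0; exact hv0.symm
      · rw [hgz k (by omega), hvW.2 k (by show k > k0; omega)]
    rw [this]
    exact hvW.1
  obtain ⟨k1, rfl⟩ : ∃ k1, k0 = k1 + 1 := ⟨k0 - 1, by omega⟩
  have hNk : N * (k1 + 1) ≤ κ := le_trans (Nat.mul_le_mul_left N hk0) hκ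
  have hnN : κ - N * k1 = n + N := by
    rw [hn]
    have : N * (k1 + 1) = N * k1 + N := by ring
    omega
  have hA : ∃ g ∈ U, g k1 ≠ 0 ∧ ∀ k > k1, g k = 0 := by
    by_contra hcon
    push Not at hcon
    refine caseB S N n k1 R F hF hrat W (nabs S N κ R) hWst hW0 ?_ (fun g hg => hdeg g hg.1 _)
      (fun g hg => by rw [← hnN]; exact hdeg g hg.1 _) hsurj ?_
    · intro g hg
      rw [nabs, hnN]
    · intro g hg h0
      by_contra h1
      obtain ⟨k, hk1, hk2⟩ := hcon g hg.1 h1
      rcases Nat.lt_or_ge (k1 + 1) k with h | h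
      · exact hk2 (hg.2 k h)
      · have : k = k1 + 1 := by omega
        exact hk2 (this ▸ h0)
  have h1 := ih k1 (Nat.lt_succ_self k1) (by omega) hA (g - v) (fun k => by
      rw [Pi.sub_apply]
      exact (natDegree_sub_le _ _).trans (max_le (hgdeg k) (hdeg v hvW.1 k))) (fun k hk => by
      rw [Pi.sub_apply]
      rcases Nat.lt_or_ge (k1 + 1) k with h | h
      · rw [hgz k h, hvW.2 k h, sub_zero]
      · have : k = k1 + 1 := by omega
        rw [this, hv0, sub_self])
  have h2 : g = (g - v) + v := by abel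
  rw [h2]
  exact U.add_mem h1 hvW.1

end H809.OD.Abs
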