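import Pool.Agent.Run7.h809.OD.FR

/-!
# The successive derivatives of a vector are independent
-/

set_option autoImplicit false
set_option linter.unusedSectionVars false

open Polynomial Differential
open scoped Differential

namespace H809.OD.Abs

variable {K L : Type} [Field K] [Field L] [CharZero K] [CharZero L] [Differential K]
  [Differential L] [Algebra K L] [DifferentialAlgebra K L]

variable (S : Sys K L)

lemma coeff_nab_zero (n : ℕ) (g : K[X]) :
    (nab S n g).coeff 0 = (g.coeff 0)′ + S.η * g.coeff 1 := by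
  unfold nab
  rw [coeff_add, coeff_add, coeff_mapCoeffs]
  have h1 : ((C S.η - X ^ 2) * derivative g).coeff 0 = S.η * g.coeff 1 := by
    rw [mul_coeff_zero, coeff_derivative]
    simp
  have h2 : ((n : K[X]) * X * g).coeff 0 = 0 := by
    simp [mul_coeff_zero]
  rw [h1, h2, add_zero]

lemma coeff_nab_succ (n b : ℕ) (g : K[X]) :
    (nab S n g).coeff (b + 1) = (g.coeff (b + 1))′ + ((b : K) + 2) * S.η * g.coeff (b + 2) +
      ((n : K) - b) * g.coeff b := by
  unfold nab
  rw [coeff_add, coeff_add, coeff_mapCoeffs]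
  have h1 : ((C S.η - X ^ 2) * derivative g).coeff (b + 1) =
      ((b : K) + 2) * S.η * g.coeff (b + 2) - b * g.coeff b := by
    have : (C S.η - X ^ 2) * derivative g = C S.η * derivative g - X * (X * derivative g) := by
      ring
    rw [this, coeff_sub, coeff_C_mul, coeff_X_mul, coeff_derivative]
    rcases b with _ | b
    · simp; ring
    · rw [coeff_X_mul, coeff_derivative]; push_cast; ring
  have h2 : ((n : K[X]) * X * g).coeff (b + 1) = n * g.coeff b := by
    have : (n : K[X]) * X * g = C (n : K) * (X * g) := by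
      rw [map_natCast]; ring
    rw [this, coeff_C_mul, coeff_X_mul]
  rw [h1, h2]
  ring

lemma nab_smul (n : ℕ) (c : K) (g : K[X]) : nab S n (c • g) = c′ • g + c • nab S n g := by
  unfold nab
  simp only [smul_eq_C_mul, Derivation.leibniz, mapCoeffs_C, smul_eq_mul, derivative_C_mul]
  ring

lemma nabs_add (N κ : ℕ) (R : K) (a b : ℕ → K[X]) :
    nabs S N κ R (a + b) = nabs S N κ R a + nabs S N κ R b := by
  funext k
  simp only [nabs, Pi.add_apply, nab_add]
  ring

lemma nabs_smul (N κ : ℕ) (R : K) (c : K) (a : ℕ → K[X]) :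
    nabs S N κ R (c • a) = c′ • a + c • nabs S N κ R a := by
  funext k
  simp only [nabs, Pi.add_apply, Pi.smul_apply]
  rw [nab_smul]
  simp only [smul_eq_C_mul]
  ring

lemma nabs_zero (N κ : ℕ) (R : K) : nabs S N κ R 0 = 0 := by
  funext k
  simp [nabs, nab_zero]

/-- **Krylov**: the first `m` derivatives of a vector of degree `k0` are linearly independent, `m`
being the dimension of the space of vectors of degree at most `k0`. -/
theorem krylov (N κ Kmax : ℕ) (hκ : N * Kmax ≤ κ) (R : K) (F : L)
    (hF : F′ = algebraMap K L R * S.w ^ N)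
    (hrat : ∀ (c : ℚ) (G : K[X]), c ≠ 0 → G.natDegree ≤ N → nab S N G ≠ C ((c : K) * R))
    (v : ℕ → ℕ → K[X]) (hv : ∀ a, v (a + 1) = nabs S N κ R (v a))
    (hdeg : ∀ a k, (v a k).natDegree ≤ κ - N * k) (k0 : ℕ) (hk0 : k0 ≤ Kmax) (hv0 : v 0 k0 ≠ 0)
    (hvz : ∀ a, ∀ k > k0, v a k = 0) (m : ℕ) (e : Fin m → ℕ × ℕ) (he : Function.Injective e)
    (he1 : ∀ i, (e i).1 ≤ k0) (he2 : ∀ i, (e i).2 + N * (e i).1 ≤ κ) (l : ℕ → K)
    (hl : ∑ a ∈ Finset.range m, l a • v a = 0) : ∀ a < m, l a = 0 := by
  classical
  by_contra hcon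
  push Not at hcon
  obtain ⟨i, hi, hli⟩ := hcon
  set r := Nat.findGreatest (fun i => l i ≠ 0) (m - 1) with hr
  have h1 : l r ≠ 0 := Nat.findGreatest_spec (P := fun i => l i ≠ 0) (by omega) hli
  have h2 : r < m := lt_of_le_of_lt (Nat.findGreatest_le (m - 1)) (by omega)
  have h3 : ∀ s, r < s → s < m → l s = 0 := by
    intro s hs1 hs2
    by_contra h4
    exact Nat.findGreatest_is_greatest (P := fun i => l i ≠ 0) hs1 (by omega) h4
  clear_value r
  have h4 : ∑ a ∈ Finset.range (r + 1), l a • v a = 0 := by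
    rw [← hl]
    refine Finset.sum_subset (fun x hx => ?_) fun x hx hx' => ?_
    · rw [Finset.mem_range] at hx ⊢; omega
    · rw [Finset.mem_range] at hx hx'
      rw [h3 x (by omega) (by omega), zero_smul]
  set U : Submodule K (ℕ → K[X]) := Submodule.span K (Set.range fun a : Fin r => v a) with hU
  have hmem : ∀ a < r, v a ∈ U := fun a ha => Submodule.subset_span ⟨⟨a, ha⟩, rfl⟩
  have hr' : v r ∈ U := by
    rw [Finset.sum_range_succ] at h4
    have h5 : v r = (l r)⁻¹ • -∑ a ∈ Finset.range r, l a • v a := by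
      rw [← add_eq_zero_iff_eq_neg'.1 h4, smul_smul, inv_mul_cancel₀ h1, one_smul]
    rw [h5]
    exact U.smul_mem _ (U.neg_mem (U.sum_mem fun a ha =>
      U.smul_mem _ (hmem a (Finset.mem_range.1 ha))))
  have hmem' : ∀ a ≤ r, v a ∈ U := by
    intro a ha
    rcases ha.lt_or_eq with h | h
    · exact hmem a h
    · rw [h]; exact hr'
  have hst : ∀ g ∈ U, nabs S N κ R g ∈ U := by
    intro g hg
    refine Submodule.span_induction (p := fun g _ => nabs S N κ R g ∈ U) ?_ ?_ ?_ ?_ hg
    · rintro _ ⟨a, rfl⟩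
      show nabs S N κ R (v a) ∈ U
      rw [← hv]
      exact hmem' _ a.2
    · rw [nabs_zero]; exact U.zero_mem
    · intro x y _ _ hx hy
      rw [nabs_add]
      exact U.add_mem hx hy
    · intro c x hxU hx
      rw [nabs_smul]
      exact U.add_mem (U.smul_mem _ hxU) (U.smul_mem _ hx)
  have hdegU : ∀ g ∈ U, ∀ k, (g k).natDegree ≤ κ - N * k := by
    intro g hg k
    refine Submodule.span_induction (p := fun g _ => (g k).natDegree ≤ κ - N * k) ?_ ?_ ?_ ?_ hg
    · rintro _ ⟨a, rfl⟩
      exact hdeg a k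
    · simp
    · intro x y _ _ hx hy
      rw [Pi.add_apply]
      exact (natDegree_add_le _ _).trans (max_le hx hy)
    · intro c x _ hx
      rw [Pi.smul_apply]
      exact (natDegree_smul_le _ _).trans hx
  have hfr := fr S N κ Kmax hκ R F hF hrat U hst hdegU k0 hk0 ⟨v 0, hmem' 0 (Nat.zero_le r), hv0,
    hvz 0⟩
  -- the basis vectors
  let ψ : (Fin m → K) →ₗ[K] (ℕ → K[X]) :=
    { toFun := fun c k => ∑ i : Fin m, if (e i).1 = k then monomial (e i).2 (c i) else 0
      map_add' := fun a b => by
        funext k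
        rw [Pi.add_apply, ← Finset.sum_add_distrib]
        refine Finset.sum_congr rfl fun i _ => ?_
        split_ifs <;> simp
      map_smul' := fun a b => by
        funext k
        rw [Pi.smul_apply, Finset.smul_sum]
        refine Finset.sum_congr rfl fun i _ => ?_
        split_ifs <;> simp [smul_monomial] }
  have hψU : ∀ c, ψ c ∈ U := by
    intro c
    refine hfr _ (fun k => ?_) (fun k hk => ?_)
    · show (∑ i : Fin m, if (e i).1 = k then monomial (e i).2 (c i) else 0 : K[X]).natDegree ≤ _
      refine natDegree_sum_le_of_forall_le _ _ fun i _ => ?_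
      split_ifs with h
      · refine (natDegree_monomial_le _).trans ?_
        have := he2 i
        rw [h] at this
        omega
      · simp
    · show (∑ i : Fin m, if (e i).1 = k then monomial (e i).2 (c i) else 0 : K[X]) = 0
      refine Finset.sum_eq_zero fun i _ => ?_
      rw [if_neg]
      have := he1 i
      omega
  have hinj : Function.Injective ψ := by
    rw [← LinearMap.ker_eq_bot, LinearMap.ker_eq_bot']
    intro c hc
    funext j
    have h5 := congrArg (fun g : ℕ → K[X] => (g (e j).1).coeff (e j).2) hc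
    simp only [ψ, LinearMap.coe_mk, AddHom.coe_mk, finsetSum_coeff, Pi.zero_apply,
      coeff_zero] at h5
    rw [Finset.sum_eq_single j] at h5
    · simpa using h5
    · intro b _ hb
      split_ifs with h6
      · rw [coeff_monomial, if_neg]
        intro h7
        exact hb (he (Prod.ext h6 h7))
      · simp
    · intro h6; exact absurd (Finset.mem_univ j) h6
  have hfin : FiniteDimensional K U := FiniteDimensional.span_of_finite K (Set.finite_range _)
  have h6 : m ≤ Module.finrank K U := by
    have := LinearMap.finrank_le_finrank_of_injective (f := ψ.codRestrict U hψU) (by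
      intro a b hab
      exact hinj (congrArg Subtype.val hab))
    simpa using this
  have h7 : Module.finrank K U ≤ r := by
    have := finrank_range_le_card (R := K) (fun a : Fin r => v a)
    simpa [Set.finrank] using this
  omega

/-- evaluation of vectors -/
noncomputable def PsiA (N κ M : ℕ) (F : L) (g : ℕ → K[X]) : L :=
  ∑ k ∈ Finset.range (M + 1), S.w ^ (κ - N * k) * F ^ k * aeval S.ζ (g k)

lemma PsiA_deriv {N κ M : ℕ} (hκ : N * M ≤ κ) (R : K) (F : L)
    (hF' : F′ = algebraMap K L R * S.w ^ N) (g : ℕ → K[X]) (hg : ∀ k > M, g k = 0) :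
    (PsiA S N κ M F g)′ = PsiA S N κ M F (nabs S N κ R g) := by
  have h1 : ∀ k, (S.w ^ (κ - N * k) * F ^ k * aeval S.ζ (g k))′ =
      S.w ^ (κ - N * k) * F ^ k * aeval S.ζ (nab S (κ - N * k) (g k)) +
      k * F ^ (k - 1) * S.w ^ (κ - N * k + N) * algebraMap K L R * aeval S.ζ (g k) := by
    intro k
    have h2 := aeval_nab S (κ - N * k) (g k)
    have h5 : S.w ^ (κ - N * k) * F ^ k * aeval S.ζ (g k) =
      F ^ k * (S.w ^ (κ - N * k) * aeval S.ζ (g k)) := by ring
    rw [h5, Derivation.leibniz, ← h2, Derivation.leibniz_pow, hF']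
    simp only [smul_eq_mul, nsmul_eq_mul]
    ring
  unfold PsiA
  rw [map_sum]
  simp only [h1]
  rw [Finset.sum_add_distrib]
  have h6 : ∀ k ∈ Finset.range (M + 1), S.w ^ (κ - N * k) * F ^ k *
      aeval S.ζ (nabs S N κ R g k) =
      S.w ^ (κ - N * k) * F ^ k * aeval S.ζ (nab S (κ - N * k) (g k)) +
      ((k + 1 : ℕ) : L) * F ^ k * S.w ^ (κ - N * k) * algebraMap K L R *
        aeval S.ζ (g (k + 1)) := by
    intro k _
    unfold nabs
    rw [map_add, map_mul, map_mul, map_natCast, aeval_C]
    ring
  rw [Finset.sum_congr rfl h6, Finset.sum_add_distrib]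
  congr 1
  rw [Finset.sum_range_succ', Finset.sum_range_succ, hg (M + 1) (Nat.lt_succ_self M)]
  simp only [map_zero, mul_zero, add_zero, Nat.cast_zero, zero_mul]
  refine Finset.sum_congr rfl fun k hk => ?_
  have hk' := Finset.mem_range.1 hk
  have h7 : κ - N * (k + 1) + N = κ - N * k := by
    have h8 : N * (k + 1) = N * k + N := by ring
    have h9 : N * (k + 1) ≤ κ := le_trans (Nat.mul_le_mul_left N (by omega)) hκ
    omega
  rw [h7, Nat.add_sub_cancel]

end H809.OD.Abs
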